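import Pool.Agent.H97.RegQuot

set_option autoImplicit false

namespace Pool.Agent.H19.OG

open IsLocalRing Pointwise

/-- dimension drop. -/
theorem ringKrullDim_quotient_span_succ_le {R : Type*} [CommRing R] {x : R}
    (hn : ∀ p ∈ minimalPrimes R, x ∉ p) :
    ringKrullDim (R ⧸ Ideal.span {x}) + 1 ≤ ringKrullDim R := by
  have h : Ideal.span {x} = x • (⊤ : Ideal R) := by
    simp [← Submodule.ideal_span_singleton_smul]
  rw [ringKrullDim_eq_of_ringEquiv (Ideal.quotientEquivAlgOfEq R h).toRingEquiv]
  have h2 := Module.supportDim_quotSMulTop_succ_le_of_notMem_minimalPrimes (R := R) (M := R)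
    (x := x) (by
      intro p hp
      apply hn
      have : Module.annihilator R R = ⊥ := Module.annihilator_eq_bot.mpr inferInstance
      rw [this] at hp
      exact hp)
  rw [← Module.supportDim_quotient_eq_ringKrullDim, ← Module.supportDim_self_eq_ringKrullDim]
  exact h2

/-- A regular local ring is a domain. -/
theorem isDomain_of_isRegularLocalRing (n : ℕ) : ∀ (R : Type*) [CommRing R] [IsRegularLocalRing R],
    Module.finrank (ResidueField R) (CotangentSpace R) ≤ n → IsDomain R := by
  induction n with
  | zero =>
    intro R _ _ h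
    have h1 : IsField R := finrank_cotangentSpace_eq_zero_iff.mp (Nat.le_zero.mp h)
    exact h1.isDomain
  | succ n ih =>
    intro R _ _ h
    by_cases h0 : Module.finrank (ResidueField R) (CotangentSpace R) = 0
    · have h1 : IsField R := finrank_cotangentSpace_eq_zero_iff.mp h0
      exact h1.isDomain
    have hdim : (Module.finrank (ResidueField R) (CotangentSpace R) : WithBot ℕ∞) =
      ringKrullDim R := (IsRegularLocalRing.iff_finrank_cotangentSpace R).mp inferInstance
    -- the maximal ideal is not contained in its square nor in a minimal prime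
    let m := maximalIdeal R
    have hmin : ∀ p ∈ minimalPrimes R, ¬ m ≤ p := by
      intro p hp hle
      have hpp : p.IsPrime := hp.1.1
      have h1 : m = p := le_antisymm hle (le_maximalIdeal hpp.ne_top)
      have h2 : m.height = 0 := by
        rw [Ideal.height_eq_zero_iff, h1]
        exact hp
      have h3 : (m.height : WithBot ℕ∞) = ringKrullDim R :=
        IsLocalRing.maximalIdeal_height_eq_ringKrullDim
      rw [h2, ← hdim] at h3
      apply h0
      exact_mod_cast h3.symm
    have hsq : ¬ m ≤ m ^ 2 := by
      intro hle
      apply h0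
      have h1 : m = ⊥ := Submodule.eq_bot_of_le_smul_of_le_jacobson_bot m m
        (IsNoetherian.noetherian m) (by rw [Ideal.smul_eq_mul, ← pow_two]; exact hle)
        (by rw [IsLocalRing.jacobson_eq_maximalIdeal ⊥ bot_ne_top])
      exact finrank_cotangentSpace_eq_zero_iff.mpr (isField_iff_maximalIdeal_eq.mpr h1)
    obtain ⟨x, hxm, hx2, hxp⟩ : ∃ x ∈ m, x ∉ m ^ 2 ∧ ∀ p ∈ minimalPrimes R, x ∉ p := by
      by_contra hcon
      push Not at hcon
      have h1 := (Ideal.subset_union_prime_finite
        (s := insert (m ^ 2) (minimalPrimes R))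
        ((minimalPrimes.finite_of_isNoetherianRing R).insert _)
        (f := id) (m ^ 2) (m ^ 2) (by
          intro i hi h2 _
          rcases hi with rfl | hi
          · exact absurd rfl h2
          · exact hi.1.1) (I := m)).mp (by
          intro x hx
          by_cases h2 : x ∈ m ^ 2
          · exact Set.mem_biUnion (Set.mem_insert _ _) h2
          · obtain ⟨p, hp, hxp⟩ := hcon x hx h2
            exact Set.mem_biUnion (Set.mem_insert_of_mem _ hp) hxp)
      obtain ⟨i, hi, hle⟩ := h1
      rcases hi with rfl | hi
      · exact hsq hle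
      · exact hmin i hi hle
    -- the quotient is regular
    have hreg : IsRegularLocalRing (R ⧸ Ideal.span {x}) := by
      have h1 := Pool.Agent.H97.isRegularLocalRing_quotient (R := R) (fun _ : Fin 1 => x)
        (fun _ => hxm) (by
          have hne : m.toCotangent ⟨x, hxm⟩ ≠ 0 := by
            intro h2
            rw [Ideal.toCotangent_eq_zero] at h2
            exact hx2 h2
          rw [Fintype.linearIndependent_iff]
          intro g hg i
          rw [Fin.sum_univ_one] at hg
          have hi : i = 0 := Subsingleton.elim _ _
          rw [hi]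
          by_contra hgi
          apply hne
          have h3 : (g 0)⁻¹ • (g 0 • m.toCotangent ⟨x, hxm⟩ : CotangentSpace R) = 0 := by
            rw [hg, smul_zero]
          rw [smul_smul, inv_mul_cancel₀ hgi, one_smul] at h3
          exact h3)
      have h2 : Set.range (fun _ : Fin 1 => x) = {x} := by
        ext y; simp [eq_comm]
      rw [h2] at h1
      exact h1
    have hdim' : (Module.finrank (ResidueField (R ⧸ Ideal.span {x}))
        (CotangentSpace (R ⧸ Ideal.span {x})) : WithBot ℕ∞) = ringKrullDim (R ⧸ Ideal.span {x}) :=
      (IsRegularLocalRing.iff_finrank_cotangentSpace _).mp inferInstance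
    have hdrop := ringKrullDim_quotient_span_succ_le hxp
    rw [← hdim, ← hdim'] at hdrop
    have hdom : IsDomain (R ⧸ Ideal.span {x}) := by
      apply ih
      have : Module.finrank (ResidueField (R ⧸ Ideal.span {x}))
        (CotangentSpace (R ⧸ Ideal.span {x})) + 1 ≤
        Module.finrank (ResidueField R) (CotangentSpace R) := by exact_mod_cast hdrop
      omega
    have hxprime : (Ideal.span {x}).IsPrime := (Ideal.Quotient.isDomain_iff_prime _).mp hdom
    obtain ⟨p, hp, hple⟩ := Ideal.exists_minimalPrimes_le (I := ⊥) (J := Ideal.span {x}) bot_le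
    have hpp : p.IsPrime := hp.1.1
    have hp0 : p = ⊥ := by
      refine Submodule.eq_bot_of_le_smul_of_le_jacobson_bot m p (IsNoetherian.noetherian p) ?_
        (by rw [IsLocalRing.jacobson_eq_maximalIdeal ⊥ bot_ne_top])
      intro y hy
      obtain ⟨z, rfl⟩ := Ideal.mem_span_singleton'.mp (hple hy)
      have hz : z ∈ p := by
        rcases hpp.mem_or_mem hy with h1 | h1
        · exact h1
        · exact absurd h1 (hxp p hp)
      rw [mul_comm]
      exact Submodule.smul_mem_smul hxm hz
    have hbot : (⊥ : Ideal R).IsPrime := hp0 ▸ hpp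
    exact IsDomain.of_bot_isPrime R

theorem isDomain_of_regularLocal (R : Type*) [CommRing R] [IsRegularLocalRing R] : IsDomain R :=
  isDomain_of_isRegularLocalRing _ R le_rfl

end Pool.Agent.H19.OG
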