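import Pool.Agent.H19.OG.Chart
import Pool.Agent.H19.OG.RegDomain

set_option autoImplicit false

namespace Pool.Agent.H19.OG

open MvPolynomial Pool.Agent.H97

/-- Let `φ : T → K` be a ring homomorphism from a regular ring to a field such that every element
of the kernel is killed by an element outside of the kernel. Then the image of `φ` is a regular
ring. -/
theorem isRegularRing_quotient_ker {T K : Type*} [CommRing T] [IsRegularRing T] [Field K]
    (φ : T →+* K) (h : ∀ x, φ x = 0 → ∃ w, φ w ≠ 0 ∧ w * x = 0) :
    IsRegularRing (T ⧸ RingHom.ker φ) := by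
  rw [isRegularRing_iff]
  intro Q hQ
  let mk := Ideal.Quotient.mk (RingHom.ker φ)
  let P : Ideal T := Q.comap mk
  have hP : P.IsPrime := Ideal.comap_isPrime _ _
  have hkP : ∀ x, φ x = 0 → x ∈ P := by
    intro x hx
    show x ∈ Q.comap mk
    rw [Ideal.mem_comap]
    have : mk x = 0 := Ideal.Quotient.eq_zero_iff_mem.mpr hx
    rw [this]; exact Q.zero_mem
  have hM : Submonoid.map mk P.primeCompl = Q.primeCompl := by
    ext x
    constructor
    · rintro ⟨y, hy, rfl⟩
      intro hx
      exact hy hx
    · intro hx
      obtain ⟨y, rfl⟩ := Ideal.Quotient.mk_surjective x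
      exact ⟨y, fun hy => hx hy, rfl⟩
  have hle : P.primeCompl ≤ Q.primeCompl.comap mk := by
    rw [← hM]; exact Submonoid.le_comap_map _
  let R := Localization.AtPrime P
  let ψ : R →+* Localization.AtPrime Q := IsLocalization.map (Localization.AtPrime Q) mk hle
  have hψ : Function.Surjective ψ := by
    have : IsLocalization (Submonoid.map mk P.primeCompl) (Localization.AtPrime Q) := by
      rw [hM]; infer_instance
    exact IsLocalization.map_surjective_of_surjective P.primeCompl R (Localization.AtPrime Q)
      Ideal.Quotient.mk_surjective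
  have hker : RingHom.ker ψ = ⊥ := by
    have h1 : RingHom.ker ψ = Ideal.map (algebraMap T R) (RingHom.ker mk) :=
      IsLocalization.ker_map (Localization.AtPrime Q) mk hM
    rw [h1, Ideal.mk_ker, eq_bot_iff, Ideal.map_le_iff_le_comap]
    intro x hx
    rw [Ideal.mem_comap, Ideal.mem_bot]
    obtain ⟨w, hw, hwx⟩ := h x hx
    have h2 : algebraMap T R w * algebraMap T R x = 0 := by rw [← map_mul, hwx, map_zero]
    have hdom : IsDomain R := isDomain_of_regularLocal R
    rcases mul_eq_zero.mp h2 with h3 | h3
    · exfalso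
      rw [IsLocalization.map_eq_zero_iff P.primeCompl] at h3
      obtain ⟨m, hm⟩ := h3
      have h4 := congrArg φ hm
      rw [map_mul, map_zero] at h4
      rcases mul_eq_zero.mp h4 with h5 | h5
      · exact m.2 (hkP _ h5)
      · exact hw h5
    · exact h3
  have hinj : Function.Injective ψ := (RingHom.injective_iff_ker_eq_bot ψ).mpr hker
  exact IsRegularLocalRing.of_ringEquiv (RingEquiv.ofBijective ψ ⟨hinj, hψ⟩)

/-! ### The chart algebra -/

variable {k N : ℕ}

/-- The family of all relations of a chart. -/
noncomputable def relFam (A : Matrix (Fin N) (Fin N) ℤ) (J : Fin k → Fin N) :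
    (Fin k × Fin k) ⊕ {x : Fin k × Fin k // x.1 ≤ x.2} → MvPolynomial (Fin k × Fin N) ℤ :=
  Sum.elim (fun x => lrel J x.1 x.2) (fun x => qrel A zrow x.1.1 x.1.2)

/-- The ideal of relations of a chart. -/
noncomputable def chartIdeal (A : Matrix (Fin N) (Fin N) ℤ) (J : Fin k → Fin N) :
    Ideal (MvPolynomial (Fin k × Fin N) ℤ) := Ideal.span (Set.range (relFam A J))

theorem sum_subtype_dite {α M : Type*} [Fintype α] [AddCommMonoid M] (p : α → Prop)
    [DecidablePred p] (f : {x : α // p x} → M) :
    ∑ x, f x = ∑ x, if h : p x then f ⟨x, h⟩ else 0 := by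
  classical
  have h1 := Finset.sum_subtype (F := inferInstance) (p := p) (Finset.univ.filter p) (by simp)
    (fun x => if h : p x then f ⟨x, h⟩ else 0)
  have h2 := Finset.sum_filter_of_ne (s := Finset.univ) (p := p)
    (f := fun x => if h : p x then f ⟨x, h⟩ else 0) (by
      intro x _ hx
      by_contra hp
      exact hx (by simp [hp]))
  rw [← h2, h1]
  refine Finset.sum_congr rfl fun x _ => ?_
  simp [x.2]

theorem sum_subtype_le {M : Type*} [AddCommMonoid M] (f : {x : Fin k × Fin k // x.1 ≤ x.2} → M) :
    ∑ x, f x = ∑ i, ∑ j, if h : i ≤ j then f ⟨(i, j), h⟩ else 0 := by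
  classical
  rw [sum_subtype_dite, Fintype.sum_prod_type]

/-- The chart algebra is a regular ring. -/
theorem isRegularRing_chartIdeal (A : Matrix (Fin N) (Fin N) ℤ)
    (hdet : (A + A.transpose).det ≠ 0) (hA : ∀ p : ℕ, p.Prime → Good A p) (J : Fin k → Fin N) :
    IsRegularRing (MvPolynomial (Fin k × Fin N) ℤ ⧸ chartIdeal A J) := by
  classical
  let e := (Fintype.equivFin ((Fin k × Fin k) ⊕ {x : Fin k × Fin k // x.1 ≤ x.2}))
  have h := isRegularRing_quotient (fun x => relFam A J (e.symm x)) (by
    intro P hP hf a t ht hmem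
    have hrel : ∀ x, relFam A J x ∈ P := by
      intro x
      have := hf (e x)
      simpa using this
    have hL : ∀ i j, lrel J i j ∈ P := fun i j => hrel (Sum.inl (i, j))
    have hQ : ∀ i j, i ≤ j → qrel A zrow i j ∈ P := fun i j hij => hrel (Sum.inr ⟨(i, j), hij⟩)
    have h1 := indep A hdet hA J P hL hQ (fun i j => a (e (Sum.inl (i, j))))
      (fun i j => if h : i ≤ j then a (e (Sum.inr ⟨(i, j), h⟩)) else 0)
      (fun i j hij => by simp [not_le.mpr hij]) t ht (by
        have h2 : ∑ x, a x * relFam A J (e.symm x) = ∑ x, a (e x) * relFam A J x := by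
          rw [← Equiv.sum_comp e]
          simp
        rw [h2, Fintype.sum_sum_type, sum_subtype_le] at hmem
        convert hmem using 3
        · rw [Fintype.sum_prod_type]
          rfl
        · refine Finset.sum_congr rfl fun i _ => Finset.sum_congr rfl fun j _ => ?_
          split_ifs
          · rfl
          · rw [zero_mul])
    intro x
    rw [← e.apply_symm_apply x]
    rcases e.symm x with ⟨i, j⟩ | ⟨⟨i, j⟩, hij⟩
    · exact h1.1 i j
    · have h3 := h1.2 i j
      have hij' : i ≤ j := hij
      simpa [hij'] using h3)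
  have hr : Set.range (fun x => relFam A J (e.symm x)) = Set.range (relFam A J) :=
    e.symm.surjective.range_comp (relFam A J)
  rw [hr] at h
  exact h

end Pool.Agent.H19.OG
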