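import Pool.Agent.H19.OG.Sec

set_option autoImplicit false

namespace Pool.Agent.H19.OG

open MvPolynomial Matrix Pool.Agent.H97

variable {k m : ℕ} (S : Matrix (Fin (k + m)) (Fin (k + m)) ℚ) (K : Type*) [Field K]
  [Algebra (CRing S) K] (M : Matrix (Fin (k + m)) (Fin (k + m)) ℚ) (J : Fin k → Fin (k + m))

/-- The homomorphism from the polynomial ring to `K` given by the matrix `ZK`. -/
noncomputable def phi : MvPolynomial (Fin k × Fin (k + m)) ℤ →+* K :=
  eval₂Hom (Int.castRingHom K) fun x => ZK S K M J x.1 x.2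

theorem phi_X (x : Fin k × Fin (k + m)) : phi S K M J (X x) = ZK S K M J x.1 x.2 := by
  simp [phi]

variable {A : Matrix (Fin (k + m)) (Fin (k + m)) ℤ} {c : ℚ}

variable {S M J} in
theorem chartIdeal_le_ker (hS : Sᵀ = S) (hM : M.det ≠ 0)
    (hA : (A + Aᵀ).map (Int.cast : ℤ → ℚ) = c • (Mᵀ * (S + Sᵀ) * M))
    (hJ : ((WK S K M).submatrix id J).det ≠ 0) :
    chartIdeal A J ≤ RingHom.ker (phi S K M J) := by
  have hK : CharZero K := charZero_K S K
  rw [chartIdeal, Ideal.span_le]
  rintro _ ⟨x, rfl⟩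
  rw [SetLike.mem_coe, RingHom.mem_ker]
  rcases x with ⟨i, j⟩ | ⟨⟨i, j⟩, hij⟩
  · show phi S K M J (lrel J i j) = 0
    rw [lrel, map_sub, phi_X]
    have h1 : ZK S K M J i (J j) = (1 : Matrix (Fin k) (Fin k) K) i j := by
      rw [← ZK_one S K hJ]; rfl
    show ZK S K M J i (J j) - _ = 0
    rw [h1, Matrix.one_apply]
    split_ifs <;> simp
  · show phi S K M J (qrel A zrow i j) = 0
    rw [map_qrel]
    have h2 : (fun i c => phi S K M J (zrow i c)) = ZK S K M J := by
      ext i c
      rw [zrow, phi_X]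
    rw [h2, qrel]
    have h3 := bf_ZK (J := J) K hS hM hA
    split_ifs with h
    · exact qf_eq_zero_of_bf (h3 i i)
    · exact h3 i j

/-- The homomorphism from the chart algebra to `K`. -/
noncomputable def phiBar (h : chartIdeal A J ≤ RingHom.ker (phi S K M J)) :
    (MvPolynomial (Fin k × Fin (k + m)) ℤ ⧸ chartIdeal A J) →+* K :=
  Ideal.Quotient.lift (chartIdeal A J) (phi S K M J) (fun _ ha => h ha)

variable {S M J} in
/-- Abstract version, for a ring `L` over the chart algebra. -/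
theorem algebraMap_eq_zero [IsFractionRing (CRing S) K] (hS : Sᵀ = S) (hM : M.det ≠ 0)
    (hc : c ≠ 0)
    (hA : (A + Aᵀ).map (Int.cast : ℤ → ℚ) = c • (Mᵀ * (S + Sᵀ) * M))
    (hJ : ((WK S K M).submatrix id J).det ≠ 0)
    (h : chartIdeal A J ≤ RingHom.ker (phi S K M J))
    {L : Type*} [CommRing L] (π : L →+* K) (hLunit : ∀ y : L, π y ≠ 0 → IsUnit y)
    (a : (MvPolynomial (Fin k × Fin (k + m)) ℤ ⧸ chartIdeal A J) →+* L)
    (hπ : ∀ t, π (a t) = phiBar S K M J h t)
    (x : MvPolynomial (Fin k × Fin (k + m)) ℤ ⧸ chartIdeal A J)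
    (hx : phiBar S K M J h x = 0) : a x = 0 := by
  classical
  -- the generic matrix over `L`
  let Zt : Matrix (Fin k) (Fin (k + m)) L :=
    Matrix.of fun i c => a (Ideal.Quotient.mk _ (X (i, c)))
  have hZt1 : Zt.submatrix id J = 1 := by
    ext i j
    have h1 : Ideal.Quotient.mk (chartIdeal A J) (lrel J i j) = 0 :=
      Ideal.Quotient.eq_zero_iff_mem.mpr (Ideal.subset_span ⟨Sum.inl (i, j), rfl⟩)
    rw [lrel, map_sub, sub_eq_zero] at h1
    show a (Ideal.Quotient.mk _ (X (i, J j))) = _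
    rw [h1, Matrix.one_apply]
    split_ifs <;> simp
  have hZt2 : ∀ i j, bf A (Zt i) (Zt j) = 0 := by
    apply bf_eq_zero_of_qrel
    intro i j hij
    have h1 : Ideal.Quotient.mk (chartIdeal A J) (qrel A zrow i j) = 0 :=
      Ideal.Quotient.eq_zero_iff_mem.mpr (Ideal.subset_span ⟨Sum.inr ⟨(i, j), hij⟩, rfl⟩)
    have h2 := congrArg a h1
    rw [map_zero] at h2
    rw [← h2]
    have h3 := map_qrel A (a.comp (Ideal.Quotient.mk (chartIdeal A J)))
      (zrow (k := k) (N := k + m)) i j
    rw [RingHom.comp_apply] at h3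
    rw [h3]
    rfl
  have hπZ : Zt.map π = ZK S K M J := by
    ext i c
    rw [Matrix.map_apply]
    show π (a (Ideal.Quotient.mk _ (X (i, c)))) = _
    rw [hπ]
    show phi S K M J (X (i, c)) = _
    rw [phi_X]
  obtain ⟨σ, hσ⟩ := exists_section K hS hM hc hA hJ π hLunit Zt hZt1 hZt2 hπZ
  have hfin : a.comp (Ideal.Quotient.mk (chartIdeal A J)) = σ.comp (phi S K M J) := by
    apply MvPolynomial.ringHom_ext
    · intro z
      exact RingHom.congr_fun (Subsingleton.elim
        ((a.comp (Ideal.Quotient.mk (chartIdeal A J))).comp C)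
        ((σ.comp (phi S K M J)).comp C)) z
    · rintro ⟨i, c⟩
      rw [RingHom.comp_apply, RingHom.comp_apply, phi_X]
      have := congrFun (congrFun hσ i) c
      rw [Matrix.map_apply] at this
      rw [this]
      rfl
  obtain ⟨f, rfl⟩ := Ideal.Quotient.mk_surjective x
  have h2 := RingHom.congr_fun hfin f
  rw [RingHom.comp_apply, RingHom.comp_apply] at h2
  rw [h2]
  have h3 : phi S K M J f = 0 := hx
  rw [h3, map_zero]

/-- The kernel of a homomorphism to a field is killed by elements outside of it as soon as it is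
killed in the local ring. -/
theorem exists_kill.{u, v} {T : Type u} {K : Type v} [CommRing T] [Field K] (ph : T →+* K)
    (h : ∀ (L : Type u) [CommRing L] (π : L →+* K) (_ : ∀ y : L, π y ≠ 0 → IsUnit y)
      (a : T →+* L) (_ : ∀ t, π (a t) = ph t) (x : T), ph x = 0 → a x = 0)
    (x : T) (hx : ph x = 0) : ∃ w, ph w ≠ 0 ∧ w * x = 0 := by
  let q : Ideal T := RingHom.ker ph
  have hq : q.IsPrime := RingHom.ker_isPrime ph
  have hunit : ∀ y : q.primeCompl, IsUnit (ph y) := fun y => isUnit_iff_ne_zero.mpr y.2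
  have h1 := h (Localization.AtPrime q)
    (IsLocalization.lift (M := q.primeCompl) (S := Localization.AtPrime q) (g := ph) hunit)
    (by
      intro y hy
      obtain ⟨⟨a, s⟩, rfl⟩ := IsLocalization.mk'_surjective q.primeCompl y
      have ha : a ∈ q.primeCompl := by
        intro ha
        apply hy
        have h1 : ph a = 0 := ha
        rw [IsLocalization.lift_mk', h1, zero_mul]
      exact (IsLocalization.AtPrime.isUnit_mk'_iff _ q a s).mpr ha)
    (algebraMap T (Localization.AtPrime q)) (fun t => IsLocalization.lift_eq hunit t) x hx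
  rw [IsLocalization.map_eq_zero_iff q.primeCompl] at h1
  obtain ⟨w, hw⟩ := h1
  exact ⟨w, w.2, hw⟩

variable {S M J} in
/-- The kernel of the homomorphism from the chart algebra to `K` is killed by elements
outside of the kernel. -/
theorem ker_killed [IsFractionRing (CRing S) K] (hS : Sᵀ = S) (hM : M.det ≠ 0) (hc : c ≠ 0)
    (hA : (A + Aᵀ).map (Int.cast : ℤ → ℚ) = c • (Mᵀ * (S + Sᵀ) * M))
    (hJ : ((WK S K M).submatrix id J).det ≠ 0)
    (h : chartIdeal A J ≤ RingHom.ker (phi S K M J))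
    (x : MvPolynomial (Fin k × Fin (k + m)) ℤ ⧸ chartIdeal A J)
    (hx : phiBar S K M J h x = 0) :
    ∃ w, phiBar S K M J h w ≠ 0 ∧ w * x = 0 := by
  refine exists_kill (phiBar S K M J h) (fun L _ π hL a ha y hy => ?_) x hx
  exact algebraMap_eq_zero K hS hM hc hA hJ h π hL a ha y hy

end Pool.Agent.H19.OG
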