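import Pool.Agent.H19.OG.P1

set_option autoImplicit false

namespace Pool.Agent.H19.OG

open Polynomial

/-- Every field of fractions of `R` has a regular projective model over the integers. -/
def FracCharts (R : Type) [CommRing R] : Prop :=
  ∀ (K : Type) [Field K] [Algebra R K] [IsFractionRing R K], HasCharts K

theorem FracCharts.of_ringEquiv {R R' : Type} [CommRing R] [CommRing R'] (h : FracCharts R)
    (e : R ≃+* R') : FracCharts R' := by
  intro K _ _ _
  let _ : Algebra R K := ((algebraMap R' K).comp e.toRingHom).toAlgebra
  have h1 : IsFractionRing R K :=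
    (IsFractionRing.isFractionRing_iff_of_base_ringEquiv (R := R') (S := K) e.symm).mp
      inferInstance
  exact h K

theorem FracCharts.polynomial {R : Type} [CommRing R] (h : FracCharts R) : FracCharts R[X] := by
  intro K' _ _ _
  have hinj : Function.Injective (algebraMap R[X] K') := IsFractionRing.injective R[X] K'
  have hdom : IsDomain R[X] := hinj.isDomain (algebraMap R[X] K')
  have hdomR : IsDomain R := (C_injective (R := R)).isDomain (C : R →+* R[X])
  let j : R →+* K' := (algebraMap R[X] K').comp C
  have hj : Function.Injective j := hinj.comp C_injective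
  let K := FractionRing R
  let algRK' : Algebra R K' := j.toAlgebra
  let algKK' : Algebra K K' := (IsFractionRing.lift (A := R) (K := K) (L := K') (g := j) hj).toAlgebra
  have htower : IsScalarTower R K K' := by
    apply IsScalarTower.of_algebraMap_eq
    intro x
    exact (IsFractionRing.lift_algebraMap (A := R) (K := K) (L := K') hj x).symm
  have hFT : FaithfulSMul R K' := (faithfulSMul_iff_algebraMap_injective R K').mpr hj
  have ht : Transcendental K (algebraMap R[X] K' X) := by
    have h1 : Transcendental R (algebraMap R[X] K' X) := by
      rw [transcendental_iff]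
      intro p hp
      have h2 : aeval (algebraMap R[X] K' X) p = algebraMap R[X] K' p := by
        rw [aeval_def]
        have h3 : eval₂ (algebraMap R K') (algebraMap R[X] K' X) p =
            eval₂ ((algebraMap R[X] K').comp C) (algebraMap R[X] K' X) p := rfl
        rw [h3, ← hom_eval₂, eval₂_C_X]
      rw [h2] at hp
      exact (map_eq_zero_iff _ hinj).mp hp
    intro h2
    exact h1 ((IsFractionRing.isAlgebraic_iff R K K').mpr h2)
  refine hasCharts_of_transcendental (K := K) (algebraMap R[X] K' X) ht ?_ (h K)
  intro F hF hX
  rw [eq_top_iff]
  intro y _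
  have hall : ∀ p : R[X], algebraMap R[X] K' p ∈ F := by
    intro p
    induction p using Polynomial.induction_on' with
    | add p q hp hq => rw [map_add]; exact F.add_mem hp hq
    | monomial n a =>
      rw [← C_mul_X_pow_eq_monomial, map_mul, map_pow]
      refine F.mul_mem ?_ (F.pow_mem hX n)
      have h1 := hF (algebraMap R K a)
      rw [← IsScalarTower.algebraMap_apply R K K'] at h1
      exact h1
  obtain ⟨a, b, hab⟩ := IsFractionRing.div_surjective (A := R[X]) y
  rw [← hab.2]
  exact F.div_mem (hall _) (hall _)

theorem FracCharts.mvPolynomial {R : Type} [CommRing R] (h : FracCharts R) (s : ℕ) :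
    FracCharts (MvPolynomial (Fin s) R) := by
  induction s with
  | zero => exact h.of_ringEquiv (MvPolynomial.isEmptyRingEquiv R (Fin 0)).symm
  | succ s ih => exact ih.polynomial.of_ringEquiv (MvPolynomial.finSuccEquiv R s).symm.toRingEquiv

end Pool.Agent.H19.OG
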