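import Pool.Agent.H19.OG.Indep
import Pool.Agent.H97.Lattice

set_option autoImplicit false

namespace Pool.Agent.H19.OG

open MvPolynomial Pool.Agent.H97

variable {k N : ℕ}

/-- The rows of the generic matrix. -/
noncomputable def zrow (i : Fin k) : Fin N → MvPolynomial (Fin k × Fin N) ℤ := fun c => X (i, c)

/-- The linear relations saying that the columns `J` of a matrix form the identity matrix. -/
noncomputable def lrel (J : Fin k → Fin N) (i j : Fin k) : MvPolynomial (Fin k × Fin N) ℤ :=
  X (i, J j) - if i = j then 1 else 0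

theorem pderiv_zrow (l : Fin k) (c : Fin N) (i : Fin k) (d : Fin N) :
    pderiv (l, c) (zrow i d) = (if i = l then (1 : MvPolynomial (Fin k × Fin N) ℤ) else 0) *
      (Pi.single c 1 : Fin N → MvPolynomial (Fin k × Fin N) ℤ) d := by
  rw [zrow, pderiv_X, Pi.single_apply, Pi.single_apply]
  by_cases h1 : i = l
  · by_cases h2 : d = c
    · simp [h1, h2]
    · simp [h1, h2]
  · simp [h1]

theorem pderiv_bf (A : Matrix (Fin N) (Fin N) ℤ) (l : Fin k) (c : Fin N) (i j : Fin k) :
    pderiv (l, c) (bf A (zrow i) (zrow j)) =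
      (if i = l then bf A (zrow j) (Pi.single c 1) else 0) +
      (if j = l then bf A (zrow i) (Pi.single c 1) else 0) := by
  have h1 : pderiv (l, c) (bf A (zrow i) (zrow j)) =
      bf A (zrow j) (fun d => pderiv (l, c) (zrow i d)) +
      bf A (zrow i) (fun d => pderiv (l, c) (zrow j d)) := by
    simp only [bf, map_sum, ← Finset.sum_add_distrib]
    refine Finset.sum_congr rfl fun a _ => Finset.sum_congr rfl fun b _ => ?_
    rw [Derivation.leibniz, map_add, Derivation.leibniz, Derivation.leibniz]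
    have : pderiv (l, c) ((A a b : ℤ) : MvPolynomial (Fin k × Fin N) ℤ) = 0 := by simp
    rw [this]
    simp only [smul_eq_mul]
    ring
  rw [h1]
  have h2 : ∀ (m i : Fin k), bf A (zrow m) (fun d => pderiv (l, c) (zrow i d)) =
      if i = l then bf A (zrow m) (Pi.single c 1) else 0 := by
    intro m i
    have h3 : (fun d => pderiv (l, c) (zrow i d)) =
        (if i = l then (1 : MvPolynomial (Fin k × Fin N) ℤ) else 0) •
          (Pi.single c 1 : Fin N → MvPolynomial (Fin k × Fin N) ℤ) := by
      ext1 d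
      rw [pderiv_zrow, Pi.smul_apply, smul_eq_mul]
    rw [h3, bf_smul_right]
    split_ifs <;> simp
  rw [h2, h2]

theorem pderiv_qf (A : Matrix (Fin N) (Fin N) ℤ) (l : Fin k) (c : Fin N) (i : Fin k) :
    pderiv (l, c) (qf A (zrow i)) =
      (if i = l then bf A (zrow i) (Pi.single c 1) else 0) := by
  have h1 : pderiv (l, c) (qf A (zrow i)) =
      bf A (zrow i) (fun d => pderiv (l, c) (zrow i d)) := by
    simp only [bf, qf, map_sum]
    refine Finset.sum_congr rfl fun a _ => Finset.sum_congr rfl fun b _ => ?_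
    rw [Derivation.leibniz, Derivation.leibniz]
    have : pderiv (l, c) ((A a b : ℤ) : MvPolynomial (Fin k × Fin N) ℤ) = 0 := by simp
    rw [this]
    simp only [smul_eq_mul]
    ring
  rw [h1]
  have h3 : (fun d => pderiv (l, c) (zrow i d)) =
      (if i = l then (1 : MvPolynomial (Fin k × Fin N) ℤ) else 0) •
        (Pi.single c 1 : Fin N → MvPolynomial (Fin k × Fin N) ℤ) := by
    ext1 d
    rw [pderiv_zrow, Pi.smul_apply, smul_eq_mul]
  rw [h3, bf_smul_right]
  split_ifs <;> simp

/-- Derivatives of the quadratic relations. -/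
theorem pderiv_qrel (A : Matrix (Fin N) (Fin N) ℤ) (l : Fin k) (c : Fin N) (i j : Fin k) :
    pderiv (l, c) (qrel A zrow i j) =
      (if i = l then bf A (zrow j) (Pi.single c 1) else 0) +
      (if j = l then bf A (zrow i) (Pi.single c 1) else 0) -
      (if i = l then if j = l then bf A (zrow l) (Pi.single c 1) else 0 else 0) := by
  by_cases hij : i = j
  · subst hij
    rw [qrel_self, pderiv_qf]
    by_cases h : i = l
    · subst h; simp
    · simp [h]
  · rw [qrel_ne A _ hij, pderiv_bf]
    by_cases h : i = l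
    · subst h
      simp [Ne.symm hij]
    · simp [h]

theorem sum_pderiv_qrel (A : Matrix (Fin N) (Fin N) ℤ) (l : Fin k) (c : Fin N)
    (a : Fin k → Fin k → MvPolynomial (Fin k × Fin N) ℤ) :
    ∑ i, ∑ j, a i j * pderiv (l, c) (qrel A zrow i j) =
      ∑ j, (a l j + a j l - if j = l then a l l else 0) * bf A (zrow j) (Pi.single c 1) := by
  simp only [pderiv_qrel, mul_add, mul_sub, Finset.sum_add_distrib, Finset.sum_sub_distrib,
    add_mul, sub_mul]
  congr 1
  · congr 1
    · rw [Finset.sum_comm]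
      refine Finset.sum_congr rfl fun j _ => ?_
      simp
    · refine Finset.sum_congr rfl fun i _ => ?_
      simp
  · simp

/-- The part of the independence proof which takes place in the residue domain. -/
theorem domain_part {D : Type*} [CommRing D] [IsDomain D] (A : Matrix (Fin N) (Fin N) ℤ)
    (hdet : (A + A.transpose).det ≠ 0)
    (hA : ∀ p : ℕ, p.Prime → Good A p) (J : Fin k → Fin N) (z : Fin k → Fin N → D)
    (hzJ : ∀ i j, z i (J j) = if i = j then 1 else 0) (hzQ : ∀ i j, qrel A z i j = 0)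
    (α β : Fin k → Fin k → D) (hαsymm : ∀ i j, α i j = α j i)
    (hder : ∀ l c, (∑ j, if J j = c then β l j else 0) +
      ∑ j, α l j * bf A (z j) (Pi.single c 1) = 0) :
    (∀ l m, β l m = 0) ∧ ((∀ l m, α l m = 0) ∨
      ∃ p : ℕ, p.Prime ∧ CharP D p ∧ ∃ (γ : D) (n : Fin N → ℤ), γ ≠ 0 ∧
        (fun c => ((n c : ℤ) : ZMod p)) ∈ radSet A p ∧ (∃ c, n c = 1) ∧
        (∀ l m, α l m = γ * ((n (J l) : ℤ) : D) * ((n (J m) : ℤ) : D)) ∧
        ∀ c, ∑ j, ((n (J j) : ℤ) : D) * z j c = ((n c : ℤ) : D)) := by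
  classical
  have hzb : ∀ i j, bf A (z i) (z j) = 0 := bf_eq_zero_of_qrel A z (fun i j _ => hzQ i j)
  let u : Fin k → Fin N → D := fun l => ∑ j, α l j • z j
  have huq : ∀ l, qf A (u l) = 0 := fun l => qf_sum_eq_zero A z _ hzQ
  have hbu : ∀ l (y : Fin N → D), bf A (u l) y = ∑ j, α l j * bf A (z j) y := by
    intro l y
    rw [bf_comm, bf_sum_right]
    refine Finset.sum_congr rfl fun j _ => ?_
    rw [bf_smul_right, bf_comm]
  have hub : ∀ l c, bf A (u l) (Pi.single c 1) = - ∑ j, if J j = c then β l j else 0 := by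
    intro l c
    rw [hbu]
    exact eq_neg_of_add_eq_zero_right (hder l c)
  have hβ : ∀ l m, β l m = 0 := by
    intro l m
    have h1 : bf A (u l) (z m) = 0 := by
      rw [hbu]
      simp [hzb]
    rw [bf_eq_sum_single] at h1
    simp only [hub, mul_neg, Finset.sum_neg_distrib, neg_eq_zero, Finset.mul_sum] at h1
    rw [Finset.sum_comm] at h1
    simp only [mul_ite, mul_zero, Finset.sum_ite_eq, Finset.mem_univ, if_true, hzJ, ite_mul,
      one_mul, zero_mul] at h1
    exact h1
  have hub0 : ∀ l c, bf A (u l) (Pi.single c 1) = 0 := by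
    intro l c
    rw [hub]
    simp [hβ]
  have huJ : ∀ l m, u l (J m) = α l m := by
    intro l m
    show (∑ j, α l j • z j) (J m) = _
    rw [Finset.sum_apply]
    simp [hzJ]
  refine ⟨hβ, ?_⟩
  have hall : (∀ l, u l = 0) → ∀ l m, α l m = 0 := by
    intro h0 l m
    rw [← huJ, h0]; rfl
  obtain ⟨p, hchar⟩ := CharP.exists D
  rcases CharP.char_is_prime_or_zero D p with hp | hp0
  swap
  · subst hp0
    have : CharZero D := CharP.charP_to_charZero D
    left
    apply hall
    intro l
    ext c
    have h1 := det_mul_eq_zero A (u l) (hub0 l) c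
    have h2 : ((A + A.transpose).det : D) ≠ 0 := by exact_mod_cast hdet
    exact (mul_eq_zero.mp h1).resolve_left h2
  have : Fact p.Prime := ⟨hp⟩
  let alg : Algebra (ZMod p) D := ZMod.algebra D p
  rcases rad_line (D := D) A p (hA p hp) with h0 | ⟨v, hv, hv0, hvD⟩
  · exact Or.inl (hall fun l => h0 (u l) (hub0 l) (huq l))
  choose cc hcc using fun l => hvD (u l) (hub0 l) (huq l)
  by_cases hcon : ∀ l m, α l m = 0
  · exact Or.inl hcon
  right
  push Not at hcon
  obtain ⟨l0, m0, h00⟩ := hcon
  have hvm0 : v (J m0) ≠ 0 := by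
    intro h1
    apply h00
    rw [← huJ, hcc, h1, map_zero, mul_zero]
  let w : Fin N → ZMod p := (v (J m0))⁻¹ • v
  have hw : w ∈ radSet A p := by
    refine ⟨fun c => ?_, ?_⟩
    · rw [bf_smul_left, hv.1 c, mul_zero]
    · rw [qf_smul, hv.2, mul_zero]
  have hwJ : w (J m0) = 1 := by simp [w, hvm0]
  let n : Fin N → ℤ := fun c => if c = J m0 then 1 else ((w c).val : ℤ)
  have hnJ : n (J m0) = 1 := by simp [n]
  have hnw : ∀ c, ((n c : ℤ) : ZMod p) = w c := by
    intro c
    by_cases hc : c = J m0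
    · subst hc; simp [n, hwJ]
    · simp [n, hc]
  have hnD : ∀ c, ((n c : ℤ) : D) = algebraMap (ZMod p) D (w c) := by
    intro c
    rw [← hnw, map_intCast]
  have hul : ∀ l c, u l c = u l (J m0) * ((n c : ℤ) : D) := by
    intro l c
    rw [hcc l c, hcc l (J m0), hnD, mul_assoc, ← map_mul]
    congr 2
    simp [w, hvm0]
  have hγl : ∀ l, u l (J m0) = α m0 m0 * ((n (J l) : ℤ) : D) := by
    intro l
    rw [huJ, hαsymm, ← huJ, hul m0 (J l), huJ]
  have hαn : ∀ l m, α l m = α m0 m0 * ((n (J l) : ℤ) : D) * ((n (J m) : ℤ) : D) := by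
    intro l m
    rw [← huJ, hul l (J m), hγl]
  have hγ0 : α m0 m0 ≠ 0 := by
    intro h1
    apply h00
    rw [hαn, h1, zero_mul, zero_mul]
  refine ⟨p, hp, hchar, α m0 m0, n, hγ0, ?_, ⟨J m0, hnJ⟩, hαn, ?_⟩
  · convert hw using 1
    ext c
    exact hnw c
  · intro c
    have h1 : u m0 c = α m0 m0 * ((n c : ℤ) : D) := by
      rw [hul m0 c, huJ]
    have h2 : u m0 c = α m0 m0 * ∑ j, ((n (J j) : ℤ) : D) * z j c := by
      show (∑ j, α m0 j • z j) c = _
      rw [Finset.sum_apply, Finset.mul_sum]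
      refine Finset.sum_congr rfl fun j _ => ?_
      rw [hαn m0 j, hnJ, Pi.smul_apply, smul_eq_mul]
      push_cast
      ring
    exact mul_left_cancel₀ hγ0 (h2.symm.trans h1)

/-- Independence of the defining relations of the scheme of isotropic subspaces in a chart of the
Grassmannian, at every prime ideal. -/
theorem indep (A : Matrix (Fin N) (Fin N) ℤ) (hdet : (A + A.transpose).det ≠ 0)
    (hA : ∀ p : ℕ, p.Prime → Good A p) (J : Fin k → Fin N)
    (P : Ideal (MvPolynomial (Fin k × Fin N) ℤ)) [hP : P.IsPrime]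
    (hL : ∀ i j, lrel J i j ∈ P) (hQ : ∀ i j, i ≤ j → qrel A zrow i j ∈ P)
    (β a : Fin k → Fin k → MvPolynomial (Fin k × Fin N) ℤ) (ha : ∀ i j, j < i → a i j = 0)
    (t : MvPolynomial (Fin k × Fin N) ℤ) (ht : t ∉ P)
    (h : t * (∑ i, ∑ j, β i j * lrel J i j + ∑ i, ∑ j, a i j * qrel A zrow i j) ∈ P ^ 2) :
    (∀ i j, β i j ∈ P) ∧ ∀ i j, a i j ∈ P := by
  classical
  have haQ : ∀ i j, a i j * qrel A zrow i j ∈ P := by
    intro i j
    by_cases hij : i ≤ j
    · exact P.mul_mem_left _ (hQ i j hij)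
    · rw [ha i j (not_le.mp hij), zero_mul]; exact P.zero_mem
  set T : MvPolynomial (Fin k × Fin N) ℤ := ∑ i, ∑ j, β i j * lrel J i j + ∑ i, ∑ j, a i j * qrel A zrow i j with hT
  have hTP : T ∈ P := P.add_mem (P.sum_mem fun i _ => P.sum_mem fun j _ => P.mul_mem_left _ (hL i j))
    (P.sum_mem fun i _ => P.sum_mem fun j _ => haQ i j)
  -- the symmetrized coefficients
  let α : Fin k → Fin k → MvPolynomial (Fin k × Fin N) ℤ := fun l j => a l j + a j l - if j = l then a l l else 0
  have hαle : ∀ i j, i ≤ j → α i j = a i j := by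
    intro i j hij
    rcases hij.lt_or_eq with h1 | h1
    · simp only [α, ha j i h1, h1.ne', if_false]; ring
    · subst h1; simp only [α, if_true]; ring
  have hαsymm : ∀ i j, α i j = α j i := by
    intro i j
    by_cases hij : i = j
    · subst hij; rfl
    · simp only [α, hij, Ne.symm hij, if_false]; ring
  -- derivatives
  have hder : ∀ (l : Fin k) (c : Fin N), (∑ j, if J j = c then β l j else 0) +
      ∑ j, α l j * bf A (zrow j) (Pi.single c 1) ∈ P := by
    intro l c
    have h1 := derivation_sq_mem (pderiv (l, c)) P h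
    rw [Derivation.leibniz, smul_eq_mul, smul_eq_mul] at h1
    have h2 : pderiv (l, c) T ∈ P := by
      have h3 : t * pderiv (l, c) T ∈ P := by
        have h4 := P.sub_mem h1 (P.mul_mem_right (pderiv (l, c) t) hTP)
        simpa using h4
      exact (hP.mem_or_mem h3).resolve_left ht
    have h5 : pderiv (l, c) T - ((∑ j, if J j = c then β l j else 0) +
        ∑ j, α l j * bf A (zrow j) (Pi.single c 1)) ∈ P := by
      have h6 : pderiv (l, c) T = (∑ i, ∑ j, (β i j * pderiv (l, c) (lrel J i j) +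
          lrel J i j * pderiv (l, c) (β i j))) +
          ∑ i, ∑ j, (a i j * pderiv (l, c) (qrel A zrow i j) +
            qrel A zrow i j * pderiv (l, c) (a i j)) := by
        simp only [hT, map_add, map_sum, Derivation.leibniz, smul_eq_mul]
      have h7 : ∑ i, ∑ j, β i j * pderiv (l, c) (lrel J i j) =
          ∑ j, if J j = c then β l j else 0 := by
        have h8 : ∀ i j, pderiv (l, c) (lrel J i j) =
            if i = l then if J j = c then (1 : MvPolynomial (Fin k × Fin N) ℤ) else 0 else 0 := by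
          intro i j
          have h9 : pderiv (l, c) (if i = j then (1 : MvPolynomial (Fin k × Fin N) ℤ) else 0) = 0 := by
            split_ifs <;> simp
          rw [lrel, map_sub, h9, sub_zero, pderiv_X, Pi.single_apply]
          by_cases h10 : i = l
          · by_cases h11 : J j = c
            · simp [h10, h11]
            · simp [h11]
          · simp [h10]
        simp only [h8]
        rw [Finset.sum_comm]
        refine Finset.sum_congr rfl fun j _ => ?_
        simp
      rw [h6]
      simp only [Finset.sum_add_distrib]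
      rw [h7, sum_pderiv_qrel]
      have h12 : ∑ i, ∑ j, lrel J i j * pderiv (l, c) (β i j) ∈ P :=
        P.sum_mem fun i _ => P.sum_mem fun j _ => P.mul_mem_right _ (hL i j)
      have h13 : ∑ i, ∑ j, qrel A zrow i j * pderiv (l, c) (a i j) ∈ P := by
        refine P.sum_mem fun i _ => P.sum_mem fun j _ => ?_
        by_cases hij : i ≤ j
        · exact P.mul_mem_right _ (hQ i j hij)
        · rw [ha i j (not_le.mp hij), map_zero, mul_zero]; exact P.zero_mem
      have h14 := P.add_mem h12 h13
      convert h14 using 1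
      simp only [α]
      ring
    have h15 := P.sub_mem h2 h5
    simpa using h15
  -- pass to the residue domain
  let D := MvPolynomial (Fin k × Fin N) ℤ ⧸ P
  let π : MvPolynomial (Fin k × Fin N) ℤ →+* D := Ideal.Quotient.mk P
  have hdomain : IsDomain D := Ideal.Quotient.isDomain P
  have hmem : ∀ x, π x = 0 ↔ x ∈ P := fun x => Ideal.Quotient.eq_zero_iff_mem
  let z : Fin k → Fin N → D := fun i c => π (zrow i c)
  have hzJ : ∀ i j, z i (J j) = if i = j then 1 else 0 := by
    intro i j
    have h1 := (hmem _).mpr (hL i j)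
    rw [lrel, map_sub, sub_eq_zero] at h1
    show π (X (i, J j)) = _
    rw [h1]
    split_ifs <;> simp
  have hzQ : ∀ i j, qrel A z i j = 0 := by
    apply qrel_eq_zero
    intro i j hij
    have h1 := (hmem _).mpr (hQ i j hij)
    rwa [map_qrel] at h1
  have hder' : ∀ l c, (∑ j, if J j = c then π (β l j) else 0) +
      ∑ j, π (α l j) * bf A (z j) (Pi.single c 1) = 0 := by
    intro l c
    have h1 := (hmem _).mpr (hder l c)
    rw [map_add, map_sum, map_sum] at h1
    have h2 : ∀ j, π (α l j * bf A (zrow j) (Pi.single c 1)) =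
        π (α l j) * bf A (z j) (Pi.single c 1) := by
      intro j
      rw [map_mul, map_bf]
      congr 2
      ext d
      by_cases hd : d = c
      · subst hd; simp
      · simp [hd]
    have h3 : ∀ j, π (if J j = c then β l j else 0) = if J j = c then π (β l j) else 0 := by
      intro j
      split_ifs <;> simp
    simp only [h2, h3] at h1
    exact h1
  obtain ⟨hβ, hα⟩ := domain_part A hdet hA J z hzJ hzQ (fun l m => π (α l m))
    (fun l m => π (β l m)) (fun i j => congrArg π (hαsymm i j)) hder'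
  refine ⟨fun i j => (hmem _).mp (hβ i j), ?_⟩
  suffices hα0 : ∀ l m, π (α l m) = 0 by
    intro i j
    by_cases hij : i ≤ j
    · rw [← hαle i j hij]; exact (hmem _).mp (hα0 i j)
    · rw [ha i j (not_le.mp hij)]; exact P.zero_mem
  rcases hα with hα | ⟨p, hp, hchar, γ, n, hγ0, hnrad, ⟨c0, hc0⟩, hαn, hsum⟩
  · exact hα
  exfalso
  have : Fact p.Prime := ⟨hp⟩
  obtain ⟨γ', hγ'⟩ : ∃ γ', π γ' = γ := Ideal.Quotient.mk_surjective γ
  have hint : ∀ x : ℤ, π (x : MvPolynomial (Fin k × Fin N) ℤ) = (x : D) := fun x => map_intCast π x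
  have hpP : (p : MvPolynomial (Fin k × Fin N) ℤ) ∈ P := by
    rw [← hmem, map_natCast]
    exact CharP.cast_eq_zero D p
  have hpx : ∀ x : ℤ, (p : ℤ) ∣ x → (x : MvPolynomial (Fin k × Fin N) ℤ) ∈ P := by
    rintro x ⟨y, rfl⟩
    push_cast
    exact P.mul_mem_right _ hpP
  -- the vector `r`
  let nS : Fin N → MvPolynomial (Fin k × Fin N) ℤ := fun c => ((n c : ℤ) : _)
  let r : Fin N → MvPolynomial (Fin k × Fin N) ℤ :=
    (∑ j, nS (J j) • zrow j) - nS
  have hr : ∀ c, r c ∈ P := by
    intro c
    rw [← hmem]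
    simp only [r]
    rw [Pi.sub_apply, Finset.sum_apply, map_sub, map_sum, sub_eq_zero]
    rw [show π (nS c) = ((n c : ℤ) : D) from hint _, ← hsum c]
    refine Finset.sum_congr rfl fun j _ => ?_
    rw [Pi.smul_apply, smul_eq_mul, map_mul]
    rw [show π (nS (J j)) = ((n (J j) : ℤ) : D) from hint _]
  have hP2 : ∀ x ∈ P, ∀ y ∈ P, x * y ∈ P ^ 2 := by
    intro x hx y hy
    rw [pow_two]
    exact Ideal.mul_mem_mul hx hy
  have hqr : qf A r ∈ P ^ 2 :=
    Ideal.sum_mem _ fun i _ => Ideal.sum_mem _ fun j _ => Ideal.mul_mem_left _ _ (hP2 _ (hr i) _ (hr j))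
  have hbr : bf A nS r ∈ P ^ 2 := by
    rw [bf_eq_sum_single]
    refine Ideal.sum_mem _ fun c _ => hP2 _ (hr c) _ ?_
    have h1 : bf A nS (Pi.single c 1) =
        ((bf A n (Pi.single c 1) : ℤ) : MvPolynomial (Fin k × Fin N) ℤ) := by
      rw [cast_bf]
      congr 1
      ext1 d
      by_cases hd : d = c
      · subst hd; simp
      · simp [hd]
    rw [h1]
    exact hpx _ (dvd_bf_of_rad hnrad _)
  obtain ⟨u', hu'⟩ : (p : ℤ) ∣ qf A n := by
    rw [← ZMod.intCast_zmod_eq_zero_iff_dvd, cast_qf]
    exact hnrad.2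
  have hu'p : ¬ (p : ℤ) ∣ u' := by
    intro h1
    refine (hA p hp).prim n ?_ hnrad ?_
    · intro h2
      have := congrFun h2 c0
      simp [hc0] at this
    · rw [hu', pow_two]
      exact mul_dvd_mul_left _ h1
  -- congruence of the relation
  have hcong : T - γ' * qf A (∑ j, nS (J j) • zrow j) ∈ P ^ 2 := by
    rw [qf_sum, Finset.mul_sum, hT, add_sub_assoc, ← Finset.sum_sub_distrib]
    refine Ideal.add_mem _ (Ideal.sum_mem _ fun i _ => Ideal.sum_mem _ fun j _ =>
      hP2 _ ((hmem _).mp (hβ i j)) _ (hL i j)) (Ideal.sum_mem _ fun i _ => ?_)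
    rw [Finset.mul_sum, ← Finset.sum_sub_distrib]
    refine Ideal.sum_mem _ fun j _ => ?_
    rw [← mul_assoc, ← sub_mul]
    by_cases hij : i ≤ j
    · refine hP2 _ ?_ _ (hQ i j hij)
      rw [if_pos hij, ← hmem, map_sub, map_mul, map_mul, ← hαle i j hij, hγ']
      rw [show π (nS (J i)) = ((n (J i) : ℤ) : D) from hint _,
        show π (nS (J j)) = ((n (J j) : ℤ) : D) from hint _]
      rw [show π (α i j) = _ from hαn i j]
      ring
    · rw [if_neg hij, ha i j (not_le.mp hij), mul_zero, sub_zero, zero_mul]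
      exact Ideal.zero_mem _
  have hfin : (p : MvPolynomial (Fin k × Fin N) ℤ) *
      (t * γ' * (u' : MvPolynomial (Fin k × Fin N) ℤ)) ∈ P ^ 2 := by
    have h1 : qf A (∑ j, nS (J j) • zrow j) = qf A nS + qf A r + bf A nS r := by
      rw [← qf_add]
      congr 1
      simp only [r]
      rw [add_sub_cancel]
    have h2 : qf A nS = (p : MvPolynomial (Fin k × Fin N) ℤ) *
        (u' : MvPolynomial (Fin k × Fin N) ℤ) := by
      have h3 : qf A nS = ((qf A n : ℤ) : MvPolynomial (Fin k × Fin N) ℤ) := by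
        rw [cast_qf]
      rw [h3, hu']
      push_cast
      rfl
    have h4 := Ideal.sub_mem _ h (Ideal.mul_mem_left _ t hcong)
    have h5 : t * T - t * (T - γ' * qf A (∑ j, nS (J j) • zrow j)) =
        t * γ' * qf A (∑ j, nS (J j) • zrow j) := by ring
    rw [h5, h1, h2] at h4
    have h6 := Ideal.sub_mem _ h4 (Ideal.mul_mem_left _ (t * γ') (Ideal.add_mem _ hqr hbr))
    convert h6 using 1
    ring
  have h7 := mem_of_prime_mul_mem_sq p hp P hpP _ hfin
  rcases hP.mem_or_mem h7 with h8 | h8
  · rcases hP.mem_or_mem h8 with h9 | h9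
    · exact ht h9
    · exact hγ0 (by rw [← hγ']; exact (hmem _).mpr h9)
  · rw [← hmem, hint] at h8
    exact hu'p ((CharP.intCast_eq_zero_iff D p u').mp h8)

end Pool.Agent.H19.OG
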