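import Pool.Agent.H19.OG.Ker
import Pool.Agent.H97.ProjModel

set_option autoImplicit false

namespace Pool.Agent.H19.OG

open MvPolynomial Matrix Pool.Agent.H97

variable {k m : ℕ} (S : Matrix (Fin (k + m)) (Fin (k + m)) ℚ) (K : Type) [Field K]
  [Algebra (CRing S) K] (M : Matrix (Fin (k + m)) (Fin (k + m)) ℚ)

/-- The index set of the charts: the nonvanishing maximal minors. -/
abbrev ChartIdx : Type := {J : Fin k → Fin (k + m) // ((WK S K M).submatrix id J).det ≠ 0}

/-- The Plücker coordinates. -/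
noncomputable def gcoord (J : ChartIdx S K M) : K := ((WK S K M).submatrix id J.1).det

theorem gcoord_ne_zero (J : ChartIdx S K M) : gcoord S K M J ≠ 0 := J.2

variable {S M} in
theorem det_submatrix_eq {J : Fin k → Fin (k + m)} (hJ : ((WK S K M).submatrix id J).det ≠ 0)
    (J' : Fin k → Fin (k + m)) :
    ((WK S K M).submatrix id J').det =
      ((WK S K M).submatrix id J).det * ((ZK S K M J).submatrix id J').det := by
  rw [← Matrix.det_mul, ← mul_submatrix_right, WK_mul_ZK S K hJ]

variable {S M} in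
theorem ZK_apply_eq {J : Fin k → Fin (k + m)} (hJ : ((WK S K M).submatrix id J).det ≠ 0)
    (i : Fin k) (c : Fin (k + m)) :
    ZK S K M J i c = ((WK S K M).submatrix id (Function.update J i c)).det /
      ((WK S K M).submatrix id J).det := by
  rw [det_submatrix_eq K hJ, mul_div_cancel_left₀ _ hJ]
  have h1 : (ZK S K M J).submatrix id (Function.update J i c) =
      (1 : Matrix (Fin k) (Fin k) K).updateCol i (fun a => ZK S K M J a c) := by
    ext a b
    rw [Matrix.submatrix_apply, Matrix.updateCol_apply, id]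
    by_cases h : b = i
    · subst h; simp
    · rw [Function.update_of_ne h, if_neg h, ← ZK_one S K hJ]
      rfl
  rw [h1, ← Matrix.cramer_apply, Matrix.cramer_one]
  rfl

variable {S M} in
theorem adjoin_ZK (J : ChartIdx S K M) :
    Algebra.adjoin ℤ (Set.range fun x : Fin k × Fin (k + m) => ZK S K M J.1 x.1 x.2) =
      chartRing (gcoord S K M) J := by
  apply le_antisymm
  · rw [Algebra.adjoin_le_iff]
    rintro _ ⟨⟨i, c⟩, rfl⟩
    show ZK S K M J.1 i c ∈ _
    rw [ZK_apply_eq K J.2]
    by_cases h : ((WK S K M).submatrix id (Function.update J.1 i c)).det = 0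
    · rw [h, zero_div]; exact Subalgebra.zero_mem _
    · exact Algebra.subset_adjoin ⟨⟨_, h⟩, rfl⟩
  · rw [chartRing, Algebra.adjoin_le_iff]
    rintro _ ⟨J', rfl⟩
    show ((WK S K M).submatrix id J'.1).det / ((WK S K M).submatrix id J.1).det ∈ _
    rw [det_submatrix_eq K J.2, mul_div_cancel_left₀ _ J.2, Matrix.det_apply']
    refine Subalgebra.sum_mem _ fun σ _ => Subalgebra.mul_mem _ ?_ ?_
    · exact Subalgebra.intCast_mem _ _
    · exact Subalgebra.prod_mem _ fun i _ => Algebra.subset_adjoin ⟨(_, _), rfl⟩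

variable {A : Matrix (Fin (k + m)) (Fin (k + m)) ℤ} {c : ℚ}

variable {S M} in
theorem range_phiBar (J : ChartIdx S K M)
    (h : chartIdeal A J.1 ≤ RingHom.ker (phi S K M J.1)) :
    (phiBar S K M J.1 h).range = (chartRing (gcoord S K M) J).toSubring := by
  rw [← adjoin_ZK]
  ext y
  constructor
  · rintro ⟨t, rfl⟩
    obtain ⟨f, rfl⟩ := Ideal.Quotient.mk_surjective t
    show phi S K M J.1 f ∈ _
    have h1 : phi S K M J.1 f = aeval (fun x : Fin k × Fin (k + m) => ZK S K M J.1 x.1 x.2) f :=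
      rfl
    rw [h1, Subalgebra.mem_toSubring, Algebra.adjoin_range_eq_range_aeval]
    exact ⟨f, rfl⟩
  · intro hy
    rw [Subalgebra.mem_toSubring, Algebra.adjoin_range_eq_range_aeval] at hy
    obtain ⟨f, hf⟩ := hy
    exact ⟨Ideal.Quotient.mk _ f, hf⟩

variable {S M} in
theorem isRegularRing_chartRing [IsFractionRing (CRing S) K] (hS : Sᵀ = S) (hM : M.det ≠ 0)
    (hc : c ≠ 0)
    (hA : (A + Aᵀ).map (Int.cast : ℤ → ℚ) = c • (Mᵀ * (S + Sᵀ) * M))
    (hdet : (A + A.transpose).det ≠ 0) (hgood : ∀ p : ℕ, p.Prime → Good A p)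
    (J : ChartIdx S K M) : IsRegularRing (chartRing (gcoord S K M) J) := by
  have h := chartIdeal_le_ker K hS hM hA J.2
  have h0 := isRegularRing_chartIdeal A hdet hgood J.1
  have h1 := isRegularRing_quotient_ker (phiBar S K M J.1 h)
    (ker_killed K hS hM hc hA J.2 h)
  let e1 : (_ ⧸ RingHom.ker (phiBar S K M J.1 h)) ≃+* (phiBar S K M J.1 h).range :=
    RingHom.quotientKerEquivRange (phiBar S K M J.1 h)
  let e2 : (phiBar S K M J.1 h).range ≃+* (chartRing (gcoord S K M) J).toSubring :=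
    RingEquiv.subringCongr (range_phiBar K J h)
  let e3 : ((MvPolynomial (Fin k × Fin (k + m)) ℤ ⧸ chartIdeal A J.1) ⧸
    RingHom.ker (phiBar S K M J.1 h)) ≃+* chartRing (gcoord S K M) J := e1.trans e2
  exact IsRegularRing.of_ringEquiv (R := (MvPolynomial (Fin k × Fin (k + m)) ℤ ⧸
    chartIdeal A J.1) ⧸ RingHom.ker (phiBar S K M J.1 h)) e3

end Pool.Agent.H19.OG
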