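import Pool.Agent.H19.OG.Main
import Pool.Agent.H19.OG.P2

set_option autoImplicit false

namespace Pool.Agent.H19.OG

open Matrix Pool.Agent.H97

/-- The coordinate ring of the isotropic Grassmannian has the property. -/
theorem fracCharts_CRing {k m : ℕ} (hodd : Odd (k + m))
    (S : Matrix (Fin (k + m)) (Fin (k + m)) ℚ) (hS : S.IsSymm) (hdet : S.det ≠ 0) :
    FracCharts (CRing S) := by
  intro K _ _ _
  have hS' : (S + S.transpose).det ≠ 0 := by
    rw [hS.eq, ← two_smul ℚ S, Matrix.det_smul]
    exact mul_ne_zero (pow_ne_zero _ two_ne_zero) hdet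
  obtain ⟨A, ⟨M, c, hM, hc, hA⟩, hAdet, hgood⟩ := exists_good hodd S hS'
  obtain ⟨J₀⟩ := exists_chart (S := S) K hM
  exact ⟨ChartIdx S K M, inferInstance, gcoord S K M, J₀, gcoord_ne_zero S K M,
    isRegularRing_chartRing K hS hM hc hA hAdet hgood, isFractionRing_chartRing K hM J₀⟩

/-- Regular models for fields isomorphic to the ring of fractions of `R`. -/
theorem FracCharts.hasCharts {R : Type} [CommRing R] (h : FracCharts R) {K : Type} [Field K]
    (e : K ≃+* FractionRing R) : HasCharts K := by
  let _ : Algebra R K := (e.symm.toRingHom.comp (algebraMap R (FractionRing R))).toAlgebra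
  let e' : FractionRing R ≃ₐ[R] K := { e.symm with commutes' := fun r => rfl }
  have : IsFractionRing R K := IsLocalization.isLocalization_of_algEquiv (nonZeroDivisors R) e'
  exact h K

end Pool.Agent.H19.OG
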