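import Pool.Agent.H19.OG.Mat
import Pool.Agent.H19.OG.Reg

set_option autoImplicit false

namespace Pool.Agent.H19.OG

open MvPolynomial Matrix Pool.Agent.H97

variable {k m : ℕ}

/-- The rows of the matrix `(1 | Y)`. -/
noncomputable def urow (i : Fin k) : Fin (k + m) → MvPolynomial (Fin k × Fin m) ℚ :=
  Fin.append (Pi.single i 1) (fun j => X (i, j))

/-- The ideal expressing that the rows of `(1 | Y)` are isotropic and mutually orthogonal. -/
noncomputable def isoIdeal (S : Matrix (Fin (k + m)) (Fin (k + m)) ℚ) :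
    Ideal (MvPolynomial (Fin k × Fin m) ℚ) :=
  Ideal.span (Set.range fun x : Fin k × Fin k =>
    ∑ c, ∑ d, C (S c d) * (urow x.1 c * urow x.2 d))

/-- The coordinate ring. -/
abbrev CRing (S : Matrix (Fin (k + m)) (Fin (k + m)) ℚ) : Type :=
  MvPolynomial (Fin k × Fin m) ℚ ⧸ isoIdeal S

section Theta

variable {L : Type*} [CommRing L] (r : ℚ →+* L) (U : Matrix (Fin k) (Fin (k + m)) L)

/-- The homomorphism given by a matrix. -/
noncomputable def thetaHom : MvPolynomial (Fin k × Fin m) ℚ →+* L :=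
  eval₂Hom r fun x => U x.1 (Fin.natAdd k x.2)

theorem thetaHom_urow (hU : U.submatrix id (Fin.castAdd m) = 1) (i : Fin k) (c : Fin (k + m)) :
    thetaHom r U (urow i c) = U i c := by
  refine Fin.addCases (fun j => ?_) (fun j => ?_) c
  · rw [urow, Fin.append_left]
    have h1 : U i (Fin.castAdd m j) = (1 : Matrix (Fin k) (Fin k) L) i j := by
      rw [← hU]; rfl
    rw [h1, Matrix.one_apply, Pi.single_apply]
    by_cases h : i = j
    · subst h; simp
    · have h' : ¬ j = i := fun h2 => h h2.symm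
      simp [h, h']
  · rw [urow, Fin.append_right, thetaHom]
    simp

theorem sum_eq_mul {R : Type*} [CommRing R] {N : ℕ} (T : Matrix (Fin N) (Fin N) R)
    (U : Matrix (Fin k) (Fin N) R) (i j : Fin k) :
    ∑ c, ∑ d, T c d * (U i c * U j d) = (U * T * Uᵀ) i j := by
  rw [Matrix.mul_apply]
  simp only [Matrix.mul_apply, Matrix.transpose_apply, Finset.sum_mul]
  rw [Finset.sum_comm]
  refine Finset.sum_congr rfl fun c _ => Finset.sum_congr rfl fun d _ => ?_
  ring

theorem thetaHom_gen (hU : U.submatrix id (Fin.castAdd m) = 1)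
    (S : Matrix (Fin (k + m)) (Fin (k + m)) ℚ) (i j : Fin k) :
    thetaHom r U (∑ c, ∑ d, C (S c d) * (urow i c * urow j d)) = (U * S.map r * Uᵀ) i j := by
  rw [← sum_eq_mul]
  simp only [map_sum, map_mul, thetaHom_urow r U hU]
  have : ∀ q : ℚ, thetaHom r U (C q) = r q := fun q => by simp [thetaHom]
  simp only [this, Matrix.map_apply]

/-- The homomorphism from the coordinate ring given by an isotropic matrix. -/
noncomputable def thetaBar (S : Matrix (Fin (k + m)) (Fin (k + m)) ℚ)
    (hU : U.submatrix id (Fin.castAdd m) = 1) (hS : U * S.map r * Uᵀ = 0) : CRing S →+* L :=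
  Ideal.Quotient.lift (isoIdeal S) (thetaHom r U) (by
    intro a ha
    have h1 : isoIdeal S ≤ RingHom.ker (thetaHom r U) := by
      rw [isoIdeal, Ideal.span_le]
      rintro _ ⟨x, rfl⟩
      rw [SetLike.mem_coe, RingHom.mem_ker, thetaHom_gen r U hU, hS, Matrix.zero_apply]
    exact h1 ha)

theorem thetaBar_mk (S : Matrix (Fin (k + m)) (Fin (k + m)) ℚ)
    (hU : U.submatrix id (Fin.castAdd m) = 1) (hS : U * S.map r * Uᵀ = 0)
    (f : MvPolynomial (Fin k × Fin m) ℚ) :
    thetaBar r U S hU hS (Ideal.Quotient.mk _ f) = thetaHom r U f := rfl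

end Theta

section Field

variable (S : Matrix (Fin (k + m)) (Fin (k + m)) ℚ) (K : Type*) [Field K] [Algebra (CRing S) K]

/-- The rational numbers in `K`. -/
noncomputable def rK : ℚ →+* K :=
  (algebraMap (CRing S) K).comp ((Ideal.Quotient.mk _).comp C)

/-- The generic isotropic matrix over `K`. -/
noncomputable def UK : Matrix (Fin k) (Fin (k + m)) K :=
  Matrix.of fun i c => algebraMap (CRing S) K (Ideal.Quotient.mk _ (urow i c))

theorem UK_apply (i : Fin k) (c : Fin (k + m)) :
    UK S K i c = algebraMap (CRing S) K (Ideal.Quotient.mk _ (urow i c)) := rfl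

theorem UK_one : (UK S K).submatrix id (Fin.castAdd m) = 1 := by
  ext i j
  rw [Matrix.submatrix_apply, UK_apply, urow, Fin.append_left, Matrix.one_apply, Pi.single_apply]
  by_cases h : i = j
  · subst h; simp
  · have h' : ¬ j = i := fun h2 => h h2.symm
    simp [h, h']

theorem UK_rel : UK S K * S.map (rK S K) * (UK S K)ᵀ = 0 := by
  ext i j
  rw [← sum_eq_mul, Matrix.zero_apply]
  have h1 : (∑ c, ∑ d, S.map (rK S K) c d * (UK S K i c * UK S K j d)) =
      algebraMap (CRing S) K (Ideal.Quotient.mk _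
        (∑ c, ∑ d, C (S c d) * (urow i c * urow j d))) := by
    simp only [map_sum, map_mul]
    rfl
  rw [h1]
  have h2 : Ideal.Quotient.mk (isoIdeal S) (∑ c, ∑ d, C (S c d) * (urow i c * urow j d)) = 0 :=
    Ideal.Quotient.eq_zero_iff_mem.mpr (Ideal.subset_span ⟨(i, j), rfl⟩)
  rw [h2, map_zero]

variable (M : Matrix (Fin (k + m)) (Fin (k + m)) ℚ)

/-- The generic isotropic matrix in the new coordinates. -/
noncomputable def WK : Matrix (Fin k) (Fin (k + m)) K := UK S K * (M⁻¹.map (rK S K))ᵀ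

theorem WK_mul (hM : M.det ≠ 0) : WK S K M * (M.map (rK S K))ᵀ = UK S K := by
  rw [WK, Matrix.mul_assoc, ← Matrix.transpose_mul, map_mul_inv_map hM, Matrix.transpose_one,
    Matrix.mul_one]

variable (J : Fin k → Fin (k + m))

/-- The normalization of `WK` at the columns `J`. -/
noncomputable def ZK : Matrix (Fin k) (Fin (k + m)) K :=
  ((WK S K M).submatrix id J)⁻¹ * WK S K M

theorem mul_submatrix_right {R : Type*} [CommRing R] {N : ℕ} {κ : Type*}
    (B : Matrix (Fin k) (Fin k) R) (W : Matrix (Fin k) (Fin N) R) (J : κ → Fin N) :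
    (B * W).submatrix id J = B * W.submatrix id J := by
  ext i j
  simp [Matrix.mul_apply]

theorem mul_submatrix_right' {R : Type*} [CommRing R] {N : ℕ} {κ : Type*}
    (W : Matrix (Fin k) (Fin N) R) (B : Matrix (Fin N) (Fin N) R) (J : κ → Fin N) :
    (W * B).submatrix id J = W * B.submatrix id J := by
  ext i j
  simp [Matrix.mul_apply]

variable {M J} in
theorem WK_mul_ZK (hJ : ((WK S K M).submatrix id J).det ≠ 0) :
    (WK S K M).submatrix id J * ZK S K M J = WK S K M := by
  rw [ZK, ← Matrix.mul_assoc, Matrix.mul_nonsing_inv _ (isUnit_iff_ne_zero.mpr hJ),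
    Matrix.one_mul]

variable {M J} in
theorem ZK_one (hJ : ((WK S K M).submatrix id J).det ≠ 0) :
    (ZK S K M J).submatrix id J = 1 := by
  rw [ZK, mul_submatrix_right, Matrix.nonsing_inv_mul _ (isUnit_iff_ne_zero.mpr hJ)]

variable {M J} in
theorem ZK_mul (hM : M.det ≠ 0) : ZK S K M J * (M.map (rK S K))ᵀ =
    ((WK S K M).submatrix id J)⁻¹ * UK S K := by
  rw [ZK, Matrix.mul_assoc, WK_mul S K M hM]

variable {A : Matrix (Fin (k + m)) (Fin (k + m)) ℤ} {c : ℚ}

variable {S M J} in
theorem bf_ZK (hS : Sᵀ = S) (hM : M.det ≠ 0)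
    (hA : (A + Aᵀ).map (Int.cast : ℤ → ℚ) = c • (Mᵀ * (S + Sᵀ) * M)) (i j : Fin k) :
    bf A (ZK S K M J i) (ZK S K M J j) = 0 := by
  revert i j
  have h1 := bf_eq_zero_of_mul hS hM hA (rK S K) (UK S K) (UK_rel S K)
  rw [← mul_pm_mul_eq_zero_iff] at h1 ⊢
  have h2 : ZK S K M J * pm A K * (ZK S K M J)ᵀ = ((WK S K M).submatrix id J)⁻¹ *
      (WK S K M * pm A K * (WK S K M)ᵀ) * (((WK S K M).submatrix id J)⁻¹)ᵀ := by
    rw [ZK, Matrix.transpose_mul]
    simp only [Matrix.mul_assoc]
  rw [h2]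
  have h3 : WK S K M * pm A K * (WK S K M)ᵀ = 0 := h1
  rw [h3, Matrix.mul_zero, Matrix.zero_mul]

end Field

end Pool.Agent.H19.OG
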