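import Mathlib

set_option autoImplicit false

namespace Pool.Agent.H19.OG

open MvPolynomial

/-- In a polynomial ring over the integers, a prime number in a prime ideal `P` does not lie in the
second symbolic power of `P`. (Proof by the Frobenius lift.) -/
theorem mem_of_prime_mul_mem_sq {σ : Type*} (p : ℕ) (hp : p.Prime)
    (P : Ideal (MvPolynomial σ ℤ)) [hP : P.IsPrime] (hpP : (p : MvPolynomial σ ℤ) ∈ P)
    (s : MvPolynomial σ ℤ) (hs : (p : MvPolynomial σ ℤ) * s ∈ P ^ 2) : s ∈ P := by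
  have : Fact p.Prime := ⟨hp⟩
  let φ := expand (R := ℤ) (σ := σ) p
  have hφ : ∀ f : MvPolynomial σ ℤ, ∃ d, φ f = f ^ p + (p : MvPolynomial σ ℤ) * d := by
    intro f
    have h1 : C ((p : ℕ) : ℤ) ∣ φ f - f ^ p := by
      rw [C_dvd_iff_zmod]
      rw [map_sub, map_pow]
      rw [map_expand, expand_zmod, sub_self]
    obtain ⟨d, hd⟩ := h1
    refine ⟨d, ?_⟩
    have h2 : (C ((p : ℕ) : ℤ) : MvPolynomial σ ℤ) = (p : MvPolynomial σ ℤ) := by simp
    rw [h2] at hd
    rw [← hd]; ring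
  have hcast : φ ((p : MvPolynomial σ ℤ)) = (p : MvPolynomial σ ℤ) := map_natCast φ p
  have hp0 : (p : MvPolynomial σ ℤ) ≠ 0 := by
    exact_mod_cast hp.ne_zero
  -- the property is stable
  have key : ∀ x ∈ P ^ 2, x ∈ P ∧ ∃ d ∈ P, φ x = x ^ p + (p : MvPolynomial σ ℤ) * d := by
    intro x hx
    rw [pow_two] at hx
    induction hx using Submodule.mul_induction_on' with
    | mem_mul_mem a ha b hb =>
      obtain ⟨da, hda⟩ := hφ a
      obtain ⟨db, hdb⟩ := hφ b
      refine ⟨P.mul_mem_right _ ha, a ^ p * db + b ^ p * da + (p : MvPolynomial σ ℤ) * (da * db),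
        ?_, ?_⟩
      · refine P.add_mem (P.add_mem (P.mul_mem_right _ (P.pow_mem_of_mem ha p hp.pos))
          (P.mul_mem_right _ (P.pow_mem_of_mem hb p hp.pos))) (P.mul_mem_right _ hpP)
      · rw [map_mul, hda, hdb]; ring
    | add a _ b _ ha hb =>
      obtain ⟨haP, da, hdaP, hda⟩ := ha
      obtain ⟨hbP, db, hdbP, hdb⟩ := hb
      refine ⟨P.add_mem haP hbP, da + db - a * (b * ∑ k ∈ Finset.Ioo 0 p,
        a ^ (k - 1) * b ^ (p - k - 1) * ((p.choose k / p : ℕ) : MvPolynomial σ ℤ)), ?_, ?_⟩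
      · exact P.sub_mem (P.add_mem hdaP hdbP) (P.mul_mem_right _ haP)
      · rw [map_add, hda, hdb, add_pow_prime_eq hp]
        push_cast
        ring
  obtain ⟨-, d, hdP, hd⟩ := key _ hs
  obtain ⟨e, he⟩ := hφ s
  rw [map_mul, hcast, he] at hd
  have h1 : s ^ p + (p : MvPolynomial σ ℤ) * e =
      (p : MvPolynomial σ ℤ) ^ (p - 1) * s ^ p + d := by
    apply mul_left_cancel₀ hp0
    rw [hd, mul_pow, mul_add]
    have h2 : (p : MvPolynomial σ ℤ) ^ p = (p : MvPolynomial σ ℤ) * (p : MvPolynomial σ ℤ) ^ (p - 1) := by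
      rw [← pow_succ', Nat.sub_add_cancel hp.one_le]
    rw [h2]; ring
  have h3 : s ^ p ∈ P := by
    have h4 : s ^ p = (p : MvPolynomial σ ℤ) ^ (p - 1) * s ^ p + d - (p : MvPolynomial σ ℤ) * e := by
      rw [← h1]; ring
    rw [h4]
    refine P.sub_mem (P.add_mem (P.mul_mem_right _ ?_) hdP) (P.mul_mem_right _ hpP)
    exact P.pow_mem_of_mem hpP _ (Nat.sub_pos_of_lt hp.one_lt)
  exact hP.mem_of_pow_mem p h3

end Pool.Agent.H19.OG
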