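import Pool.Agent.H97.ChartReg
import Pool.Agent.H19.OG.Pder

set_option autoImplicit false

namespace Pool.Agent.H19.OG

open MvPolynomial Pool.Agent.H97

/-! ### Quadratic relations between the rows of a matrix -/

section Rel

variable {ι : Type*} [Fintype ι] {R : Type*} [CommRing R] {R' : Type*} [CommRing R'] {k : ℕ}

/-- The asymmetric bilinear form `∑ A c d x c y d`. -/
def tf (A : Matrix ι ι ℤ) (x y : ι → R) : R := ∑ c, ∑ d, (A c d : R) * (x c * y d)

variable (A : Matrix ι ι ℤ)

theorem tf_add_comm (x y : ι → R) : tf A x y + tf A y x = bf A x y := by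
  simp only [tf, bf, ← Finset.sum_add_distrib]
  refine Finset.sum_congr rfl fun i _ => Finset.sum_congr rfl fun j _ => ?_
  ring

theorem tf_self (x : ι → R) : tf A x x = qf A x := rfl

theorem tf_add_left (x x' y : ι → R) : tf A (x + x') y = tf A x y + tf A x' y := by
  simp only [tf, ← Finset.sum_add_distrib, Pi.add_apply]
  refine Finset.sum_congr rfl fun i _ => Finset.sum_congr rfl fun j _ => ?_
  ring

theorem tf_add_right (x y y' : ι → R) : tf A x (y + y') = tf A x y + tf A x y' := by
  simp only [tf, ← Finset.sum_add_distrib, Pi.add_apply]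
  refine Finset.sum_congr rfl fun i _ => Finset.sum_congr rfl fun j _ => ?_
  ring

theorem tf_smul_smul (a b : R) (x y : ι → R) : tf A (a • x) (b • y) = a * b * tf A x y := by
  simp only [tf, Finset.mul_sum, Pi.smul_apply, smul_eq_mul]
  refine Finset.sum_congr rfl fun i _ => Finset.sum_congr rfl fun j _ => ?_
  ring

theorem tf_sum_sum {κ κ' : Type*} (s : Finset κ) (s' : Finset κ') (x : κ → ι → R)
    (y : κ' → ι → R) :
    tf A (∑ i ∈ s, x i) (∑ j ∈ s', y j) = ∑ i ∈ s, ∑ j ∈ s', tf A (x i) (y j) := by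
  classical
  have h0 : ∀ y : ι → R, tf A 0 y = 0 := by intro y; simp [tf]
  have h0' : ∀ x : ι → R, tf A x 0 = 0 := by intro x; simp [tf]
  induction s using Finset.induction_on with
  | empty => simp [h0]
  | insert a s ha ih =>
    rw [Finset.sum_insert ha, Finset.sum_insert ha, tf_add_left, ih]
    congr 1
    clear ih
    induction s' using Finset.induction_on with
    | empty => simp [h0']
    | insert b s' hb ih => rw [Finset.sum_insert hb, Finset.sum_insert hb, tf_add_right, ih]

/-- The quadratic relations between the rows `w i`: the value of the form at `w i` on the diagonal,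
the value of the polar form at `w i`, `w j` off the diagonal. -/
def qrel (w : Fin k → ι → R) (i j : Fin k) : R := if i = j then qf A (w i) else bf A (w i) (w j)

theorem qrel_self (w : Fin k → ι → R) (i : Fin k) : qrel A w i i = qf A (w i) := by simp [qrel]

theorem qrel_ne (w : Fin k → ι → R) {i j : Fin k} (h : i ≠ j) :
    qrel A w i j = bf A (w i) (w j) := by simp [qrel, h]

theorem map_qrel (φ : R →+* R') (w : Fin k → ι → R) (i j : Fin k) :
    φ (qrel A w i j) = qrel A (fun i c => φ (w i c)) i j := by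
  unfold qrel
  split_ifs with h
  · rw [map_qf]
  · rw [map_bf]

theorem qf_sum (w : Fin k → ι → R) (n : Fin k → R) :
    qf A (∑ j, n j • w j) = ∑ i, ∑ j, (if i ≤ j then n i * n j else 0) * qrel A w i j := by
  rw [← tf_self, tf_sum_sum]
  have h1 : ∀ i j, tf A (n i • w i) (n j • w j) =
      (if i < j then n i * n j * tf A (w i) (w j) else 0) +
      (if j < i then n i * n j * tf A (w i) (w j) else 0) +
      (if i = j then n i * n j * tf A (w i) (w j) else 0) := by
    intro i j
    rw [tf_smul_smul]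
    rcases lt_trichotomy i j with h | h | h
    · simp [h, h.not_gt, h.ne]
    · subst h; simp
    · simp [h, h.not_gt, h.ne']
  simp only [h1, Finset.sum_add_distrib]
  rw [Finset.sum_comm (f := fun i j => if j < i then n i * n j * tf A (w i) (w j) else 0)]
  simp only [← Finset.sum_add_distrib]
  refine Finset.sum_congr rfl fun i _ => Finset.sum_congr rfl fun j _ => ?_
  rcases lt_trichotomy i j with h | h | h
  · simp only [h, if_true, h.ne, if_false, h.le, qrel, ← tf_add_comm]
    ring
  · subst h; simp [qrel, tf_self]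
  · simp [h.not_gt, h.not_ge, h.ne']

theorem qf_sum_eq_zero (w : Fin k → ι → R) (n : Fin k → R) (h : ∀ i j, qrel A w i j = 0) :
    qf A (∑ j, n j • w j) = 0 := by
  rw [qf_sum]
  simp [h]

theorem bf_eq_zero_of_qrel (w : Fin k → ι → R) (h : ∀ i j, i ≤ j → qrel A w i j = 0)
    (i j : Fin k) : bf A (w i) (w j) = 0 := by
  rcases lt_trichotomy i j with hij | hij | hij
  · rw [← qrel_ne A w hij.ne, h i j hij.le]
  · subst hij
    rw [bf_self, ← qrel_self A w, h i i le_rfl, mul_zero]
  · rw [bf_comm, ← qrel_ne A w hij.ne, h j i hij.le]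

theorem qrel_eq_zero (w : Fin k → ι → R) (h : ∀ i j, i ≤ j → qrel A w i j = 0)
    (i j : Fin k) : qrel A w i j = 0 := by
  by_cases hij : i = j
  · subst hij; exact h i i le_rfl
  · rw [qrel_ne A w hij]; exact bf_eq_zero_of_qrel A w h i j

end Rel

/-! ### Radical vectors over domains of characteristic `p` -/

theorem rad_line.{u} {ι : Type*} [Fintype ι] [DecidableEq ι] (A : Matrix ι ι ℤ)
    {D : Type u} [CommRing D] [IsDomain D] (p : ℕ) [Fact p.Prime]
    [Algebra (ZMod p) D] (hA : Good A p) :
    (∀ ξ : ι → D, (∀ k, bf A ξ (Pi.single k 1) = 0) → qf A ξ = 0 → ξ = 0) ∨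
    ∃ v ∈ radSet A p, v ≠ 0 ∧ ∀ ξ : ι → D, (∀ k, bf A ξ (Pi.single k 1) = 0) → qf A ξ = 0 →
      ∃ c : D, ∀ j, ξ j = c * algebraMap (ZMod p) D (v j) := by
  by_cases h : ∃ v ∈ radSet A p, v ≠ 0
  · obtain ⟨v, hv, hv0⟩ := h
    right
    refine ⟨v, hv, hv0, fun ξ h1 h2 => ?_⟩
    obtain ⟨α, s, c, w, hw, hξ⟩ := rad_decomp A p ξ h1 h2
    choose t ht using fun a => hA.line v hv hv0 (w a) (hw a)
    refine ⟨∑ a ∈ s, c a * algebraMap (ZMod p) D (t a), fun j => ?_⟩
    conv_lhs => rw [hξ]
    rw [Finset.sum_apply, Finset.sum_mul]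
    refine Finset.sum_congr rfl fun a _ => ?_
    rw [ht a, Pi.smul_apply, Pi.smul_apply, smul_eq_mul, smul_eq_mul, map_mul]
    ring
  · push Not at h
    left
    intro ξ h1 h2
    obtain ⟨α, s, c, w, hw, hξ⟩ := rad_decomp A p ξ h1 h2
    rw [hξ]
    refine Finset.sum_eq_zero fun a _ => ?_
    rw [h (w a) (hw a)]
    ext j
    simp

end Pool.Agent.H19.OG
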