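import Pool.Agent.H19.OG.Charts

set_option autoImplicit false

namespace Pool.Agent.H19.OG

open MvPolynomial Matrix Pool.Agent.H97

/-- A full rank matrix has a nonvanishing maximal minor. -/
theorem exists_minor {K : Type*} [Field K] {k N : ℕ} (W : Matrix (Fin k) (Fin N) K)
    (B : Matrix (Fin N) (Fin k) K) (hWB : W * B = 1) :
    ∃ J : Fin k → Fin N, (W.submatrix id J).det ≠ 0 := by
  classical
  let s : Set (Fin k → K) := Set.range fun c : Fin N => fun i => W i c
  have hs : Submodule.span K s = ⊤ := by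
    rw [eq_top_iff, ← (Pi.basisFun K (Fin k)).span_eq, Submodule.span_le]
    rintro _ ⟨j, rfl⟩
    have h1 : (Pi.basisFun K (Fin k)) j = ∑ c, B c j • (fun i => W i c) := by
      ext i
      have h2 := congrFun (congrFun hWB i) j
      rw [Matrix.mul_apply, Matrix.one_apply] at h2
      rw [Pi.basisFun_apply, Pi.single_apply, ← h2, Finset.sum_apply]
      refine Finset.sum_congr rfl fun c _ => ?_
      rw [Pi.smul_apply, smul_eq_mul, mul_comm]
    rw [h1]
    exact Submodule.sum_mem _ fun c _ => Submodule.smul_mem _ _ (Submodule.subset_span ⟨c, rfl⟩)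
  have hfin : Module.finrank K (Submodule.span K s) = k := by
    rw [hs, finrank_top, Module.finrank_fintype_fun_eq_card, Fintype.card_fin]
  obtain ⟨f, hf, -, hli⟩ := Submodule.exists_fun_fin_finrank_span_eq (K := K) s
  have hli' : LinearIndependent K (f ∘ Fin.cast hfin.symm) :=
    hli.comp _ (Fin.cast_injective _)
  choose J hJ using hf
  refine ⟨J ∘ Fin.cast hfin.symm, ?_⟩
  have h1 : LinearIndependent K (W.submatrix id (J ∘ Fin.cast hfin.symm)).col := by
    convert hli' using 1
    ext j i
    rw [Function.comp_apply, ← hJ]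
    rfl
  exact ((Matrix.isUnit_iff_isUnit_det _).mp
    (Matrix.linearIndependent_cols_iff_isUnit.mp h1)).ne_zero

theorem det_mem {K : Type*} [Field K] (F : Subfield K) {n : ℕ} (B : Matrix (Fin n) (Fin n) K)
    (h : ∀ i j, B i j ∈ F) : B.det ∈ F := by
  rw [Matrix.det_apply']
  refine F.sum_mem fun σ _ => F.mul_mem ?_ (F.prod_mem fun i _ => h _ _)
  exact intCast_mem F _

theorem inv_mem {K : Type*} [Field K] (F : Subfield K) {n : ℕ} (B : Matrix (Fin n) (Fin n) K)
    (h : ∀ i j, B i j ∈ F) (i j : Fin n) : B⁻¹ i j ∈ F := by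
  rw [Matrix.inv_def, Matrix.smul_apply, smul_eq_mul, Ring.inverse_eq_inv']
  refine F.mul_mem (F.inv_mem (det_mem F B h)) ?_
  rw [Matrix.adjugate_apply]
  apply det_mem
  intro a b
  rw [Matrix.updateRow_apply]
  split_ifs
  · rw [Pi.single_apply]
    split_ifs
    · exact F.one_mem
    · exact F.zero_mem
  · exact h a b

theorem mul_mem {K : Type*} [Field K] (F : Subfield K) {l n o : ℕ} (B : Matrix (Fin l) (Fin n) K)
    (B' : Matrix (Fin n) (Fin o) K) (h : ∀ i j, B i j ∈ F) (h' : ∀ i j, B' i j ∈ F) (i : Fin l)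
    (j : Fin o) : (B * B') i j ∈ F := by
  rw [Matrix.mul_apply]
  exact F.sum_mem fun a _ => F.mul_mem (h i a) (h' a j)

variable {k m : ℕ} {S : Matrix (Fin (k + m)) (Fin (k + m)) ℚ} (K : Type) [Field K]
  [Algebra (CRing S) K] {M : Matrix (Fin (k + m)) (Fin (k + m)) ℚ}

theorem exists_chart (hM : M.det ≠ 0) : Nonempty (ChartIdx S K M) := by
  obtain ⟨J, hJ⟩ := exists_minor (WK S K M)
    ((M.map (rK S K))ᵀ.submatrix id (Fin.castAdd m)) (by
      rw [← mul_submatrix_right', WK_mul S K M hM, UK_one])
  exact ⟨⟨J, hJ⟩⟩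

/-- The field `K` is the field of fractions of each chart ring. -/
theorem isFractionRing_chartRing [IsFractionRing (CRing S) K] (hM : M.det ≠ 0)
    (J : ChartIdx S K M) : IsFractionRing (chartRing (gcoord S K M) J) K := by
  have hclos : Subfield.closure (chartRing (gcoord S K M) J : Set K) = ⊤ := by
    rw [eq_top_iff]
    set F := Subfield.closure (chartRing (gcoord S K M) J : Set K) with hF
    have hrat : ∀ r : ℚ, rK S K r ∈ F := fun r => by
      rw [eq_ratCast]; exact SubfieldClass.ratCast_mem F r
    have hZ : ∀ i c, ZK S K M J.1 i c ∈ F := by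
      intro i c
      apply Subfield.subset_closure
      rw [SetLike.mem_coe, ← adjoin_ZK]
      exact Algebra.subset_adjoin ⟨(i, c), rfl⟩
    have hV : ∀ i c, (((WK S K M).submatrix id J.1)⁻¹ * UK S K) i c ∈ F := by
      rw [← ZK_mul S K hM]
      exact mul_mem F _ _ hZ fun a b => hrat _
    have hWi : ∀ i j, ((WK S K M).submatrix id J.1)⁻¹ i j ∈ F := by
      intro i j
      have h1 : ((WK S K M).submatrix id J.1)⁻¹ =
          (((WK S K M).submatrix id J.1)⁻¹ * UK S K).submatrix id (Fin.castAdd m) := by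
        rw [mul_submatrix_right, UK_one, Matrix.mul_one]
      rw [h1]
      exact hV _ _
    have hJu : IsUnit ((WK S K M).submatrix id J.1).det := isUnit_iff_ne_zero.mpr J.2
    have hW : ∀ i j, ((WK S K M).submatrix id J.1) i j ∈ F := by
      rw [← Matrix.nonsing_inv_nonsing_inv _ hJu]
      exact inv_mem F _ hWi
    have hU : ∀ i c, UK S K i c ∈ F := by
      have h1 : UK S K = (WK S K M).submatrix id J.1 *
          (((WK S K M).submatrix id J.1)⁻¹ * UK S K) := by
        rw [← Matrix.mul_assoc, Matrix.mul_nonsing_inv _ hJu, Matrix.one_mul]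
      rw [h1]
      exact mul_mem F _ _ hW hV
    have hall : ∀ f : MvPolynomial (Fin k × Fin m) ℚ,
        algebraMap (CRing S) K (Ideal.Quotient.mk _ f) ∈ F := by
      intro f
      induction f using MvPolynomial.induction_on with
      | C r => exact hrat r
      | add p q hp hq => rw [map_add, map_add]; exact F.add_mem hp hq
      | mul_X p x hp =>
        rw [map_mul, map_mul]
        refine F.mul_mem hp ?_
        have := hU x.1 (Fin.natAdd k x.2)
        rw [UK_apply, urow, Fin.append_right] at this
        exact this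
    intro y _
    obtain ⟨a, b, rfl⟩ := IsLocalization.exists_mk'_eq (nonZeroDivisors (CRing S)) y
    obtain ⟨a', rfl⟩ := Ideal.Quotient.mk_surjective a
    obtain ⟨b', hb'⟩ := Ideal.Quotient.mk_surjective (b : CRing S)
    rw [IsFractionRing.mk'_eq_div, ← hb']
    exact F.div_mem (hall a') (hall b')
  have hsurj : ∀ y : K, ∃ a b : chartRing (gcoord S K M) J, y = (a : K) / (b : K) := by
    intro y
    have hk : y ∈ Subfield.closure (chartRing (gcoord S K M) J : Set K) := by
      rw [hclos]; trivial
    rw [Subfield.mem_closure_iff] at hk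
    obtain ⟨a, ha, b, hb, rfl⟩ := hk
    have hcl : Subring.closure (chartRing (gcoord S K M) J : Set K) =
        (chartRing (gcoord S K M) J).toSubring :=
      Subring.closure_eq (chartRing (gcoord S K M) J).toSubring
    rw [hcl] at ha hb
    exact ⟨⟨a, ha⟩, ⟨b, hb⟩, rfl⟩
  exact IsFractionRing.of_field (chartRing (gcoord S K M) J) K hsurj


end Pool.Agent.H19.OG
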