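import Pool.Agent.H97.Lattice
import Pool.Agent.H19.OG.Indep

set_option autoImplicit false

namespace Pool.Agent.H19.OG

open Matrix Pool.Agent.H97

variable {k N : ℕ}

/-- The polar matrix of `A` over a ring. -/
def pm (A : Matrix (Fin N) (Fin N) ℤ) (R : Type*) [CommRing R] : Matrix (Fin N) (Fin N) R :=
  (A + Aᵀ).map (Int.cast : ℤ → R)

theorem mul_pm_mul_apply {R : Type*} [CommRing R] (A : Matrix (Fin N) (Fin N) ℤ)
    (B B' : Matrix (Fin k) (Fin N) R) (i j : Fin k) :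
    (B * pm A R * B'ᵀ) i j = bf A (B i) (B' j) := by
  rw [bf_eq_dotProduct, Matrix.mul_assoc, Matrix.mul_apply]
  rfl

theorem mul_pm_mul_eq_zero_iff {R : Type*} [CommRing R] (A : Matrix (Fin N) (Fin N) ℤ)
    (B : Matrix (Fin k) (Fin N) R) :
    B * pm A R * Bᵀ = 0 ↔ ∀ i j, bf A (B i) (B j) = 0 := by
  constructor
  · intro h i j
    rw [← mul_pm_mul_apply, h, Matrix.zero_apply]
  · intro h
    ext i j
    rw [mul_pm_mul_apply, h, Matrix.zero_apply]

variable {S : Matrix (Fin N) (Fin N) ℚ} {A : Matrix (Fin N) (Fin N) ℤ}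
  {M : Matrix (Fin N) (Fin N) ℚ} {c : ℚ}

theorem pm_eq (hA : (A + Aᵀ).map (Int.cast : ℤ → ℚ) = c • (Mᵀ * (S + Sᵀ) * M))
    {R : Type*} [CommRing R] (r : ℚ →+* R) :
    pm A R = r c • ((M.map r)ᵀ * (S + Sᵀ).map r * M.map r) := by
  have h1 : pm A R = ((A + Aᵀ).map (Int.cast : ℤ → ℚ)).map r := by
    ext i j
    simp [pm]
  rw [h1, hA]
  ext i j
  rw [Matrix.map_apply, Matrix.smul_apply, Matrix.smul_apply, smul_eq_mul, smul_eq_mul, map_mul]
  congr 1
  rw [← Matrix.transpose_map, ← Matrix.map_mul, ← Matrix.map_mul, Matrix.map_apply]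

theorem map_mul_inv_map (hM : M.det ≠ 0) {R : Type*} [CommRing R] (r : ℚ →+* R) :
    M.map r * M⁻¹.map r = 1 := by
  rw [← Matrix.map_mul, Matrix.mul_nonsing_inv _ (isUnit_iff_ne_zero.mpr hM)]
  simp

theorem inv_map_mul_map (hM : M.det ≠ 0) {R : Type*} [CommRing R] (r : ℚ →+* R) :
    M⁻¹.map r * M.map r = 1 := by
  rw [← Matrix.map_mul, Matrix.nonsing_inv_mul _ (isUnit_iff_ne_zero.mpr hM)]
  simp

/-- From an isotropic matrix for `A` to one for `S`. -/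
theorem mul_sym_mul_eq_zero (hS : Sᵀ = S) (hc : c ≠ 0)
    (hA : (A + Aᵀ).map (Int.cast : ℤ → ℚ) = c • (Mᵀ * (S + Sᵀ) * M))
    {R : Type*} [CommRing R] (r : ℚ →+* R) (Z : Matrix (Fin k) (Fin N) R)
    (hZ : ∀ i j, bf A (Z i) (Z j) = 0) :
    (Z * (M.map r)ᵀ) * S.map r * (Z * (M.map r)ᵀ)ᵀ = 0 := by
  have h1 := (mul_pm_mul_eq_zero_iff A Z).mpr hZ
  rw [pm_eq hA r, hS] at h1
  have h2 : (S + S).map r = (r 2) • S.map r := by
    ext i j
    rw [Matrix.map_apply, Matrix.smul_apply, Matrix.add_apply, smul_eq_mul, Matrix.map_apply,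
      ← map_mul, two_mul]
  rw [h2, Matrix.mul_smul, Matrix.smul_mul, Matrix.mul_smul, Matrix.smul_mul,
    Matrix.mul_smul, Matrix.smul_mul] at h1
  have h3 : IsUnit (r c) := (isUnit_iff_ne_zero.mpr hc).map r
  have h4 : IsUnit (r 2) := (isUnit_iff_ne_zero.mpr two_ne_zero).map r
  rw [h3.smul_eq_zero, h4.smul_eq_zero] at h1
  rw [Matrix.transpose_mul, Matrix.transpose_transpose]
  simpa only [Matrix.mul_assoc] using h1

/-- From an isotropic matrix for `S` to one for `A`. -/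
theorem bf_eq_zero_of_mul (hS : Sᵀ = S) (hM : M.det ≠ 0)
    (hA : (A + Aᵀ).map (Int.cast : ℤ → ℚ) = c • (Mᵀ * (S + Sᵀ) * M))
    {R : Type*} [CommRing R] (r : ℚ →+* R) (U : Matrix (Fin k) (Fin N) R)
    (hU : U * S.map r * Uᵀ = 0) (i j : Fin k) :
    bf A ((U * (M⁻¹.map r)ᵀ) i) ((U * (M⁻¹.map r)ᵀ) j) = 0 := by
  revert i j
  rw [← mul_pm_mul_eq_zero_iff]
  rw [pm_eq hA r, hS]
  have h2 : (S + S).map r = (r 2) • S.map r := by
    ext i j
    rw [Matrix.map_apply, Matrix.smul_apply, Matrix.add_apply, smul_eq_mul, Matrix.map_apply,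
      ← map_mul, two_mul]
  have h3 : (M⁻¹.map r)ᵀ * (M.map r)ᵀ = 1 := by
    rw [← Matrix.transpose_mul, map_mul_inv_map hM, Matrix.transpose_one]
  have h4 : M.map r * M⁻¹.map r = 1 := map_mul_inv_map hM r
  have h5 : U * (M⁻¹.map r)ᵀ * (r c • ((M.map r)ᵀ * (S + S).map r * M.map r)) *
      (U * (M⁻¹.map r)ᵀ)ᵀ = (r c * r 2) • (U * ((M⁻¹.map r)ᵀ * (M.map r)ᵀ) * S.map r *
        (M.map r * M⁻¹.map r) * Uᵀ) := by
    rw [h2, Matrix.transpose_mul, Matrix.transpose_transpose]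
    simp only [Matrix.mul_smul, Matrix.smul_mul, smul_smul, Matrix.mul_assoc]
  rw [h5, h3, h4, Matrix.mul_one, Matrix.mul_one, hU, smul_zero]

theorem qf_eq_zero_of_bf {R : Type*} [CommRing R] [IsDomain R] [CharZero R] {x : Fin N → R}
    (h : bf A x x = 0) : qf A x = 0 := by
  rw [bf_self] at h
  rcases mul_eq_zero.mp h with h1 | h1
  · exact absurd h1 two_ne_zero
  · exact h1

end Pool.Agent.H19.OG
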