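import Pool.Agent.H97.ProjModel

set_option autoImplicit false

namespace Pool.Agent.H19.OG

open Polynomial Pool.Agent.H97

/-- The field `K` has a regular projective model over the integers given by a finite family of
nonzero elements. -/
def HasCharts (K : Type) [Field K] : Prop :=
  ∃ (ι : Type) (_ : Finite ι) (g : ι → K) (i₀ : ι), (∀ i, g i ≠ 0) ∧
    (∀ i, IsRegularRing (chartRing g i)) ∧ IsFractionRing (chartRing g i₀) K

theorem HasCharts.exists_model {K : Type} [Field K] (h : HasCharts K) :
    ∃ (X' : AlgebraicGeometry.Scheme.{0}) (_ : AlgebraicGeometry.IsIntegral X')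
      (f : X' ⟶ AlgebraicGeometry.Spec (CommRingCat.of ℤ)),
        AlgebraicGeometry.IsProper f ∧
        (∀ x : X',
          (((Module.finrank (IsLocalRing.ResidueField (X'.presheaf.stalk x))
              (IsLocalRing.CotangentSpace (X'.presheaf.stalk x)) : ℕ∞)) : WithBot ℕ∞)
            = ringKrullDim (X'.presheaf.stalk x)) ∧
        Nonempty (X'.functionField ≃+* K) := by
  obtain ⟨ι, _, g, i₀, hg, hreg, hfrac⟩ := h
  exact exists_projective_model' g hg i₀ hreg hfrac

variable {K K' : Type} [Field K] [Field K'] [Algebra K K']

/-- A polynomial ring over a regular ring inside a field. -/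
theorem isRegularRing_adjoin (B : Subalgebra ℤ K) (hB : IsRegularRing B) (u : K')
    (hu : Transcendental K u) (C : Subalgebra ℤ K') (h1 : ∀ b ∈ B, algebraMap K K' b ∈ C)
    (h2 : u ∈ C)
    (h3 : ∀ D : Subalgebra ℤ K', (∀ b ∈ B, algebraMap K K' b ∈ D) → u ∈ D → C ≤ D) :
    IsRegularRing C := by
  let ev : B[X] →+* K' := eval₂RingHom ((algebraMap K K').comp (B.val : B →+* K)) u
  have hev : ∀ p : B[X], ev p = aeval u (p.map (B.val : B →+* K)) := by
    intro p
    rw [aeval_def, eval₂_map]
    rfl
  have hinj : Function.Injective ev := by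
    rw [injective_iff_map_eq_zero]
    intro p hp
    rw [hev] at hp
    have h0 : p.map (B.val : B →+* K) = 0 := (transcendental_iff.mp hu) _ hp
    exact (map_eq_zero_iff (mapRingHom (B.val : B →+* K))
      (map_injective _ Subtype.val_injective)).mp h0
  have hrange : ev.range = C.toSubring := by
    apply le_antisymm
    · rintro _ ⟨p, rfl⟩
      induction p using Polynomial.induction_on' with
      | add p q hp hq => rw [map_add]; exact C.add_mem hp hq
      | monomial n a =>
        show eval₂ _ _ _ ∈ _
        rw [eval₂_monomial]
        exact C.mul_mem (h1 _ a.2) (C.pow_mem h2 n)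
    · have h4 := h3 (subalgebraOfSubring ev.range)
        (fun b hb => ⟨Polynomial.C ⟨b, hb⟩, by
          show eval₂ _ _ _ = _
          rw [eval₂_C]; rfl⟩)
        ⟨Polynomial.X, by
          show eval₂ _ _ _ = _
          rw [eval₂_X]⟩
      exact h4
  let e1 : B[X] ≃+* ev.range := RingEquiv.ofBijective ev.rangeRestrict
    ⟨fun a b hab => hinj (congrArg Subtype.val hab), ev.rangeRestrict_surjective⟩
  let e2 : ev.range ≃+* C.toSubring := RingEquiv.subringCongr hrange
  let e3 : B[X] ≃+* C := e1.trans e2
  exact IsRegularRing.of_ringEquiv (R := B[X]) e3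

theorem hasCharts_of_transcendental (t : K') (ht : Transcendental K t)
    (hgen : ∀ F : Subfield K', (∀ b, algebraMap K K' b ∈ F) → t ∈ F → F = ⊤)
    (h : HasCharts K) : HasCharts K' := by
  obtain ⟨ι, hfin, g, i₀, hg, hreg, hfrac⟩ := h
  have ht0 : t ≠ 0 := by
    rintro rfl
    exact ht isAlgebraic_zero
  let g' : ι × Bool → K' := fun x => algebraMap K K' (g x.1) * (if x.2 then t else 1)
  have hgK : ∀ i, algebraMap K K' (g i) ≠ 0 := fun i =>
    (map_ne_zero_iff _ (algebraMap K K').injective).mpr (hg i)
  have hg' : ∀ x, g' x ≠ 0 := by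
    rintro ⟨i, b⟩
    refine mul_ne_zero (hgK i) ?_
    cases b <;> simp [ht0]
  have hmem : ∀ i b, ∀ y ∈ chartRing g i, algebraMap K K' y ∈ chartRing g' (i, b) := by
    intro i b y hy
    have h1 : chartRing g i ≤ (chartRing g' (i, b)).comap
        ((Algebra.ofId K K').restrictScalars ℤ) := by
      rw [chartRing, Algebra.adjoin_le_iff]
      rintro _ ⟨j, rfl⟩
      show algebraMap K K' (g j / g i) ∈ chartRing g' (i, b)
      apply Algebra.subset_adjoin
      refine ⟨(j, b), ?_⟩
      have : (if b then t else (1 : K')) ≠ 0 := by cases b <;> simp [ht0]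
      show algebraMap K K' (g j) * (if b then t else 1) / (algebraMap K K' (g i) * _) = _
      rw [mul_div_mul_right _ _ this, map_div₀]
    exact h1 hy
  refine ⟨ι × Bool, inferInstance, g', (i₀, false), hg', ?_, ?_⟩
  · rintro ⟨i, b⟩
    cases b
    · refine isRegularRing_adjoin (chartRing g i) (hreg i) t ht _ (hmem i false) ?_ ?_
      · apply Algebra.subset_adjoin
        refine ⟨(i, true), ?_⟩
        show algebraMap K K' (g i) * t / (algebraMap K K' (g i) * 1) = t
        have := hgK i
        field_simp
      · intro D h1 h2
        rw [chartRing, Algebra.adjoin_le_iff]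
        rintro _ ⟨⟨j, b'⟩, rfl⟩
        have h3 : g' (j, b') / g' (i, false) =
            algebraMap K K' (g j / g i) * (if b' then t else 1) := by
          show algebraMap K K' (g j) * (if b' then t else 1) / (algebraMap K K' (g i) * 1) = _
          rw [map_div₀]
          have := hgK i
          field_simp
        show g' (j, b') / g' (i, false) ∈ D
        rw [h3]
        refine D.mul_mem (h1 _ (Algebra.subset_adjoin ⟨j, rfl⟩)) ?_
        split_ifs
        · exact h2
        · exact D.one_mem
    · have ht' : Transcendental K t⁻¹ := by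
        intro h
        have := h.inv
        rw [inv_inv] at this
        exact ht this
      refine isRegularRing_adjoin (chartRing g i) (hreg i) t⁻¹ ht' _ (hmem i true) ?_ ?_
      · apply Algebra.subset_adjoin
        refine ⟨(i, false), ?_⟩
        show algebraMap K K' (g i) * 1 / (algebraMap K K' (g i) * t) = t⁻¹
        have := hgK i
        field_simp
      · intro D h1 h2
        rw [chartRing, Algebra.adjoin_le_iff]
        rintro _ ⟨⟨j, b'⟩, rfl⟩
        have h3 : g' (j, b') / g' (i, true) =
            algebraMap K K' (g j / g i) * (if b' then 1 else t⁻¹) := by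
          show algebraMap K K' (g j) * (if b' then t else 1) / (algebraMap K K' (g i) * t) = _
          rw [map_div₀]
          have := hgK i
          cases b' <;> simp <;> field_simp
        show g' (j, b') / g' (i, true) ∈ D
        rw [h3]
        refine D.mul_mem (h1 _ (Algebra.subset_adjoin ⟨j, rfl⟩)) ?_
        split_ifs
        · exact D.one_mem
        · exact h2
  · have hclos : Subfield.closure (chartRing g' (i₀, false) : Set K') = ⊤ := by
      apply hgen
      · intro b
        obtain ⟨x, y, hxy⟩ := IsFractionRing.div_surjective (A := chartRing g i₀) b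
        rw [← hxy.2, map_div₀]
        refine Subfield.div_mem _ (Subfield.subset_closure ?_) (Subfield.subset_closure ?_)
        · exact hmem i₀ false _ x.2
        · exact hmem i₀ false _ y.2
      · apply Subfield.subset_closure
        apply Algebra.subset_adjoin
        refine ⟨(i₀, true), ?_⟩
        show algebraMap K K' (g i₀) * t / (algebraMap K K' (g i₀) * 1) = t
        have := hgK i₀
        field_simp
    have hsurj : ∀ y : K', ∃ a b : chartRing g' (i₀, false), y = (a : K') / (b : K') := by
      intro y
      have hk : y ∈ Subfield.closure (chartRing g' (i₀, false) : Set K') := by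
        rw [hclos]; trivial
      rw [Subfield.mem_closure_iff] at hk
      obtain ⟨a, ha, b, hb, rfl⟩ := hk
      have hcl : Subring.closure (chartRing g' (i₀, false) : Set K') =
          (chartRing g' (i₀, false)).toSubring :=
        Subring.closure_eq (chartRing g' (i₀, false)).toSubring
      rw [hcl] at ha hb
      exact ⟨⟨a, ha⟩, ⟨b, hb⟩, rfl⟩
    exact IsFractionRing.of_field (chartRing g' (i₀, false)) K' hsurj

end Pool.Agent.H19.OG
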