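import Pool.Agent.H19.OG.Geo

set_option autoImplicit false

namespace Pool.Agent.H19.OG

open MvPolynomial Matrix Pool.Agent.H97

variable {k m : ℕ}

theorem charZero_K (S : Matrix (Fin (k + m)) (Fin (k + m)) ℚ) (K : Type*) [Field K]
    [Algebra (CRing S) K] : CharZero K := charZero_of_injective_ringHom (rK S K).injective

/-- The rational numbers in a local ring with residue characteristic zero. -/
theorem exists_ratHom {K L : Type*} [Field K] [CharZero K] [CommRing L] (π : L →+* K)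
    (hπ : ∀ y : L, π y ≠ 0 → IsUnit y) : Nonempty (ℚ →+* L) := by
  have hint : ∀ y : nonZeroDivisors ℤ, IsUnit (Int.castRingHom L (y : ℤ)) := by
    intro y
    apply hπ
    rw [eq_intCast, map_intCast]
    have : (y : ℤ) ≠ 0 := nonZeroDivisors.coe_ne_zero y
    exact_mod_cast this
  exact ⟨IsLocalization.lift (M := nonZeroDivisors ℤ) (g := Int.castRingHom L) hint⟩

variable {S : Matrix (Fin (k + m)) (Fin (k + m)) ℚ} (K : Type*) [Field K]
  [Algebra (CRing S) K] [IsFractionRing (CRing S) K]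
  {M : Matrix (Fin (k + m)) (Fin (k + m)) ℚ} {J : Fin k → Fin (k + m)}
  {A : Matrix (Fin (k + m)) (Fin (k + m)) ℤ} {c : ℚ}

theorem exists_section (hS : Sᵀ = S) (hM : M.det ≠ 0) (hc : c ≠ 0)
    (hA : (A + Aᵀ).map (Int.cast : ℤ → ℚ) = c • (Mᵀ * (S + Sᵀ) * M))
    (hJ : ((WK S K M).submatrix id J).det ≠ 0)
    {L : Type*} [CommRing L] (π : L →+* K) (hLunit : ∀ y : L, π y ≠ 0 → IsUnit y)
    (Zt : Matrix (Fin k) (Fin (k + m)) L) (hZt1 : Zt.submatrix id J = 1)
    (hZt2 : ∀ i j, bf A (Zt i) (Zt j) = 0) (hπZ : Zt.map π = ZK S K M J) :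
    ∃ σ : K →+* L, (ZK S K M J).map σ = Zt := by
  have hK : CharZero K := charZero_K S K
  obtain ⟨r⟩ := exists_ratHom π hLunit
  have hπr : π.comp r = rK S K := Subsingleton.elim _ _
  -- the matrix `V`
  set V : Matrix (Fin k) (Fin (k + m)) L := Zt * (M.map r)ᵀ with hV
  have hMr : (M.map r)ᵀ.map π = (M.map (rK S K))ᵀ := by
    rw [← hπr]
    rfl
  have hπV : V.map π = ((WK S K M).submatrix id J)⁻¹ * UK S K := by
    rw [hV, Matrix.map_mul, hπZ, hMr, ZK_mul S K hM]
  set V₁ : Matrix (Fin k) (Fin k) L := V.submatrix id (Fin.castAdd m) with hV₁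
  have hπV₁ : V₁.map π = ((WK S K M).submatrix id J)⁻¹ := by
    have h1 : V₁.map π = (V.map π).submatrix id (Fin.castAdd m) := rfl
    rw [h1, hπV, mul_submatrix_right, UK_one, Matrix.mul_one]
  have hV₁u : IsUnit V₁.det := by
    apply hLunit
    rw [RingHom.map_det, RingHom.mapMatrix_apply, hπV₁, Matrix.det_nonsing_inv]
    rw [Ring.inverse_eq_inv']
    exact inv_ne_zero hJ
  -- the matrix `U` over `L`
  set UL : Matrix (Fin k) (Fin (k + m)) L := V₁⁻¹ * V with hUL
  have hUL1 : UL.submatrix id (Fin.castAdd m) = 1 := by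
    rw [hUL, mul_submatrix_right, ← hV₁, Matrix.nonsing_inv_mul _ hV₁u]
  have hULS : UL * S.map r * ULᵀ = 0 := by
    have h1 : V * S.map r * Vᵀ = 0 := mul_sym_mul_eq_zero hS hc hA r Zt hZt2
    have h2 : UL * S.map r * ULᵀ = V₁⁻¹ * (V * S.map r * Vᵀ) * (V₁⁻¹)ᵀ := by
      rw [hUL, Matrix.transpose_mul]
      simp only [Matrix.mul_assoc]
    rw [h2, h1, Matrix.mul_zero, Matrix.zero_mul]
  have hπUL : UL.map π = UK S K := by
    have h1 : V₁ * UL = V := by
      rw [hUL, ← Matrix.mul_assoc, Matrix.mul_nonsing_inv _ hV₁u, Matrix.one_mul]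
    have h2 : V₁.map π * UL.map π = V.map π := by rw [← Matrix.map_mul, h1]
    rw [hπV₁, hπV] at h2
    have h3 := congrArg (fun B => (WK S K M).submatrix id J * B) h2
    simp only [← Matrix.mul_assoc] at h3
    rwa [Matrix.mul_nonsing_inv _ (isUnit_iff_ne_zero.mpr hJ), Matrix.one_mul, Matrix.one_mul]
      at h3
  obtain ⟨th, hth⟩ : ∃ th : CRing S →+* L, ∀ f, th (Ideal.Quotient.mk _ f) = thetaHom r UL f :=
    ⟨thetaBar r UL S hUL1 hULS, fun f => rfl⟩
  have hπth : ∀ a, π (th a) = algebraMap (CRing S) K a := by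
    intro a
    have h0 : π.comp th = algebraMap (CRing S) K := by
      apply Ideal.Quotient.ringHom_ext
      apply MvPolynomial.ringHom_ext
      · intro a
        exact RingHom.congr_fun (Subsingleton.elim
          ((π.comp th).comp ((Ideal.Quotient.mk _).comp C)) (rK S K)) a
      · rintro ⟨i, j⟩
        rw [RingHom.comp_apply, RingHom.comp_apply, RingHom.comp_apply, hth]
        have h1 : (X (i, j) : MvPolynomial (Fin k × Fin m) ℚ) = urow i (Fin.natAdd k j) := by
          rw [urow, Fin.append_right]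
        rw [h1, thetaHom_urow r UL hUL1, ← UK_apply, ← hπUL, Matrix.map_apply]
    exact RingHom.congr_fun h0 a
  have hthu : ∀ y : nonZeroDivisors (CRing S), IsUnit (th y) := by
    intro y
    apply hLunit
    rw [hπth]
    exact (IsLocalization.map_units K y).ne_zero
  obtain ⟨σ, hσ⟩ : ∃ σ : K →+* L, ∀ a : CRing S, σ (algebraMap (CRing S) K a) = th a :=
    ⟨IsLocalization.lift (M := nonZeroDivisors (CRing S)) (g := th) hthu, fun a =>
      IsLocalization.lift_eq hthu a⟩
  refine ⟨σ, ?_⟩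
  have hσU : (UK S K).map σ = UL := by
    ext i c
    rw [Matrix.map_apply, UK_apply, hσ, hth]
    exact thetaHom_urow r UL hUL1 i c
  have hσr : σ.comp (rK S K) = r := Subsingleton.elim _ _
  have hσM : (M⁻¹.map (rK S K))ᵀ.map σ = (M⁻¹.map r)ᵀ := by
    rw [← hσr]
    rfl
  have hσW : (WK S K M).map σ = V₁⁻¹ * Zt := by
    rw [WK, Matrix.map_mul, hσU, hσM, hUL, hV, Matrix.mul_assoc,
      Matrix.mul_assoc, ← Matrix.transpose_mul, inv_map_mul_map hM, Matrix.transpose_one,
      Matrix.mul_one]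
  have hσWJ : ((WK S K M).submatrix id J).map σ = V₁⁻¹ := by
    have h1 : ((WK S K M).submatrix id J).map σ = ((WK S K M).map σ).submatrix id J := rfl
    rw [h1, hσW, mul_submatrix_right, hZt1, Matrix.mul_one]
  have h1 : ((WK S K M).submatrix id J).map σ * (ZK S K M J).map σ = (WK S K M).map σ := by
    rw [← Matrix.map_mul, WK_mul_ZK S K hJ]
  rw [hσWJ, hσW] at h1
  have h3 := congrArg (fun B => V₁ * B) h1
  simp only [← Matrix.mul_assoc] at h3
  rwa [Matrix.mul_nonsing_inv _ hV₁u, Matrix.one_mul, Matrix.one_mul] at h3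

end Pool.Agent.H19.OG
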